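import Mathlib

/-!
# Definitions of the block SR (fixed file): the Redei matrix and the Monsky matrix
-/

set_option autoImplicit false

namespace Pool.Agent.Work.MP_8efaaa_nt.SR

/-- `1` if `u` is a quadratic nonresidue modulo the prime `p`, `0` otherwise -/
def sg (u : ℤ) (p : ℕ) : ZMod 2 := if jacobiSym u p = -1 then 1 else 0

/-- The Redei matrix of `a`, indexed by the prime factors of `a`: the entry at `(p, q)`, `p ≠ q`, is `1` if `q` is a
quadratic nonresidue modulo `p` and `0` otherwise; the sum of each row is `0`. -/
def redei (a : ℕ) : Matrix a.primeFactors a.primeFactors (ZMod 2) :=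
  fun p q => if p = q then ∑ r : a.primeFactors, (if r = p then 0 else sg (r : ℕ) p)
    else sg (q : ℕ) p

/-- The diagonal matrix of the symbols of `u` modulo the prime factors of `a`. -/
def dg (a : ℕ) (u : ℤ) : Matrix a.primeFactors a.primeFactors (ZMod 2) :=
  Matrix.diagonal fun p => sg u p

/-- Monsky's matrix of the odd number `a`. -/
def monsky (a : ℕ) :
    Matrix (a.primeFactors ⊕ a.primeFactors) (a.primeFactors ⊕ a.primeFactors) (ZMod 2) :=
  Matrix.fromBlocks (redei a + dg a 2) (dg a 2) (dg a 2) (redei a + dg a (-2))

/-- the indicator function of the prime factors of `d` -/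
def ind (a d : ℕ) : a.primeFactors → ZMod 2 := fun p => if (p : ℕ) ∣ d then 1 else 0

end Pool.Agent.Work.MP_8efaaa_nt.SR
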