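import Mathlib
import Pool.Agent.Work.MP_8efaaa_nt.SR.Defs

/-!
# SR/Ker (M): vectors in the kernel of the Monsky matrix

PROOF of `rank_ne`. If `M.rank + 1 = card ι` then the kernel of `M.mulVecLin` has dimension `1` over `ZMod 2` (`LinearMap.finrank_range_add_finrank_ker`), so it has exactly two elements, but `0`, `v`, `w` are three different elements of it (`Module.card_eq_pow_finrank`, or `finrank_eq_one_iff'`).
PROOF of `ker_vec`. `fromBlocks_mulVec`: the first block is `A x + D2 x + D2 (x + z) = A x + D2 z = 0` (characteristic `2`: `CharTwo.add_self_eq_zero`, `D2 z = A x` is `h1`), the second is `D2 x + A (x + z) + D(-2) (x + z)`; `A (x + z) = D2 z + D(-1) (x + z)` and `D(-2) = D2 + D(-1)`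
(`sg (-2) p = sg 2 p + sg (-1) p` for an odd prime `p`: `jacobiSym.mul_left`, the symbols of `2` and `-1` modulo `p` are `1` or `-1`), sum `= 0`.
PROOF of `two_vec`. `rank_ne` for the two vectors of `ker_vec`; `Fintype.card (a.primeFactors ⊕ a.primeFactors) = 2 * a.primeFactors.card`.
-/

set_option autoImplicit false

namespace Pool.Agent.Work.MP_8efaaa_nt.SR

private theorem zmod2_ne {c : ZMod 2} (h : c ≠ 0) : c = 1 := by
  revert c; decide

theorem rank_ne {ι : Type*} [Fintype ι] [DecidableEq ι] (M : Matrix ι ι (ZMod 2))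
    {v w : ι → ZMod 2} (hv : M.mulVec v = 0) (hw : M.mulVec w = 0) (v0 : v ≠ 0) (w0 : w ≠ 0)
    (hvw : v ≠ w) : M.rank + 1 ≠ Fintype.card ι := by
  intro h
  have h1 := LinearMap.finrank_range_add_finrank_ker M.mulVecLin
  rw [Module.finrank_fintype_fun_eq_card, ← h] at h1
  have h2 : Module.finrank (ZMod 2) (LinearMap.ker M.mulVecLin) = 1 := by
    have h3 : M.rank = Module.finrank (ZMod 2) (LinearMap.range M.mulVecLin) := rfl
    omega
  obtain ⟨g, _, hg⟩ := finrank_eq_one_iff'.1 h2
  have key : ∀ u : ι → ZMod 2, M.mulVec u = 0 → u ≠ 0 → u = g := by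
    intro u hu u0
    obtain ⟨c, hc⟩ := hg ⟨u, by rw [LinearMap.mem_ker]; exact hu⟩
    have hc' : c • (g : ι → ZMod 2) = u := congrArg Subtype.val hc
    have c0 : c ≠ 0 := by
      rintro rfl
      rw [zero_smul] at hc'
      exact u0 hc'.symm
    rw [zmod2_ne c0, one_smul] at hc'
    exact hc'.symm
  exact hvw ((key v hv v0).trans (key w hw w0).symm)

private theorem sg_neg_two {p : ℕ} (hp : Odd p) (h1 : p ≠ 1) : sg (-2) p = sg 2 p + sg (-1) p := by
  have hc2 : (2 : ℤ).gcd (p : ℤ) = 1 := by
    have : Nat.gcd 2 p = 1 := Nat.coprime_two_left.2 hp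
    simpa [Int.gcd] using this
  have hc1 : (-1 : ℤ).gcd (p : ℤ) = 1 := by simp
  have e : jacobiSym (-2) p = jacobiSym 2 p * jacobiSym (-1) p := by
    rw [← jacobiSym.mul_left]; norm_num
  unfold sg
  rw [e]
  rcases jacobiSym.eq_one_or_neg_one hc2 with h2 | h2 <;>
    rcases jacobiSym.eq_one_or_neg_one hc1 with h3 | h3 <;> rw [h2, h3] <;> decide

theorem ker_vec {a : ℕ} (ha : Odd a) {x z : a.primeFactors → ZMod 2}
    (h1 : (redei a).mulVec x = fun p : a.primeFactors => sg 2 p * z p)
    (h2 : (redei a).mulVec z = fun p : a.primeFactors => sg (-1) p * (x p + z p)) :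
    (monsky a).mulVec (Sum.elim x (fun p : a.primeFactors => x p + z p)) = 0 := by
  unfold monsky
  rw [Matrix.fromBlocks_mulVec]
  have e1 : (Sum.elim x (fun p : a.primeFactors => x p + z p)) ∘ Sum.inl = x := rfl
  have e2 : (Sum.elim x (fun p : a.primeFactors => x p + z p)) ∘ Sum.inr = x + z := rfl
  rw [e1, e2]
  have hchar : ∀ t : ZMod 2, t + t = 0 := by decide
  funext i
  rcases i with p | p
  · simp only [Sum.elim_inl, Matrix.add_mulVec, Matrix.mulVec_add, h1, dg, Pi.add_apply,
      Matrix.mulVec_diagonal, Pi.zero_apply]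
    linear_combination hchar (sg 2 p * z p) + hchar (sg 2 p * x p)
  · simp only [Sum.elim_inr, Matrix.add_mulVec, Matrix.mulVec_add, h1, h2, dg, Pi.add_apply,
      Matrix.mulVec_diagonal, Pi.zero_apply]
    have hp : Odd (p : ℕ) := by
      have := Nat.dvd_of_mem_primeFactors p.2
      exact Odd.of_dvd_nat ha this
    have hp1 : (p : ℕ) ≠ 1 := (Nat.prime_of_mem_primeFactors p.2).ne_one
    rw [sg_neg_two hp hp1]
    linear_combination hchar (sg 2 p * z p) + hchar (sg 2 p * x p) + hchar (sg (-1) p * x p)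
      + hchar (sg (-1) p * z p)

theorem two_vec {a : ℕ} (ha : Odd a) {x z x' z' : a.primeFactors → ZMod 2}
    (h1 : (redei a).mulVec x = fun p : a.primeFactors => sg 2 p * z p)
    (h2 : (redei a).mulVec z = fun p : a.primeFactors => sg (-1) p * (x p + z p))
    (h1' : (redei a).mulVec x' = fun p : a.primeFactors => sg 2 p * z' p)
    (h2' : (redei a).mulVec z' = fun p : a.primeFactors => sg (-1) p * (x' p + z' p))
    (h0 : ¬ (x = 0 ∧ z = 0)) (h0' : ¬ (x' = 0 ∧ z' = 0)) (hne : ¬ (x = x' ∧ z = z')) :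
    (monsky a).rank + 1 ≠ 2 * a.primeFactors.card := by
  have hc : 2 * a.primeFactors.card = Fintype.card (a.primeFactors ⊕ a.primeFactors) := by
    rw [Fintype.card_sum, Fintype.card_coe]; ring
  rw [hc]
  have inj : ∀ x z x' z' : a.primeFactors → ZMod 2,
      Sum.elim x (fun p : a.primeFactors => x p + z p) =
        Sum.elim x' (fun p : a.primeFactors => x' p + z' p) → x = x' ∧ z = z' := by
    intro x z x' z' h
    have hx : x = x' := by
      funext p
      exact congrFun h (Sum.inl p)
    refine ⟨hx, ?_⟩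
    subst hx
    funext p
    exact add_left_cancel (congrFun h (Sum.inr p))
  have hz : (0 : a.primeFactors ⊕ a.primeFactors → ZMod 2) =
      Sum.elim (0 : a.primeFactors → ZMod 2)
        (fun p : a.primeFactors => (0 : a.primeFactors → ZMod 2) p +
          (0 : a.primeFactors → ZMod 2) p) := by
    funext i
    rcases i with p | p <;> simp
  refine rank_ne (monsky a) (ker_vec ha h1 h2) (ker_vec ha h1' h2') ?_ ?_ ?_
  · intro h
    rw [hz] at h
    exact h0 (inj _ _ _ _ h)
  · intro h
    rw [hz] at h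
    exact h0' (inj _ _ _ _ h)
  · intro h
    exact hne (inj _ _ _ _ h)


end Pool.Agent.Work.MP_8efaaa_nt.SR
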