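import Mathlib

/-!
# SR/CoSy (S-M): the local conditions of a conic

PROOF. `p ∣ d` a prime, `d = p d'`, `p ∤ e` (squarefree). `p ∤ y`: otherwise `p ∣ z^2`, `p ∣ z`, `p^2 ∣ d x^2`, and `p^2 ∤ d`, so `p ∣ x`, contradiction to `IsCoprime x y`. Modulo `p`: `e y^2 = z^2` with `y` invertible, so `e = (z/y)^2` is a square modulo `p`, nonzero since `p ∤ e`: `jacobiSym e p = 1`
(`jacobiSym e p * jacobiSym (y^2) p = jacobiSym (z^2) p`, `jacobiSym.mod_left`, `jacobiSym.sq_one'`). The same for `p ∣ e` (exchange). See also the beginning of `Rf/FPl.lean` (local conditions, private there).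
-/

set_option autoImplicit false

namespace Pool.Agent.Work.MP_8efaaa_nt.SR

private theorem cosy_aux {d e : ℕ} (hsf : Squarefree (d * e)) {x y z : ℤ}
    (h : d * x ^ 2 + e * y ^ 2 = z ^ 2) (hc : IsCoprime x y) {p : ℕ} (hp : p.Prime)
    (hpd : p ∣ d) : jacobiSym e p = 1 := by
  have hpZ : Prime (p : ℤ) := Nat.prime_iff_prime_int.1 hp
  obtain ⟨d', rfl⟩ := hpd
  have hpe : ¬ p ∣ e := by
    intro hpe
    have h1 : p * p ∣ p * d' * e := mul_dvd_mul (dvd_mul_right p d') hpe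
    exact hp.one_lt.ne' (Nat.isUnit_iff.1 (hsf p h1))
  have hpd' : ¬ p ∣ d' := by
    intro hpe
    have h1 : p * p ∣ p * d' * e := dvd_mul_of_dvd_left (mul_dvd_mul_left p hpe) e
    exact hp.one_lt.ne' (Nat.isUnit_iff.1 (hsf p h1))
  push_cast at h
  have hy : ¬ (p : ℤ) ∣ y := by
    rintro ⟨y', rfl⟩
    have h1 : (p : ℤ) ∣ z ^ 2 := by
      rw [← h]
      exact dvd_add (Dvd.intro (d' * x ^ 2) (by ring)) (Dvd.intro (e * p * y' ^ 2) (by ring))
    obtain ⟨z', rfl⟩ := hpZ.dvd_of_dvd_pow h1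
    have h2 : (p : ℤ) * (d' * x ^ 2) = (p : ℤ) * (p * (z' ^ 2 - e * y' ^ 2)) := by
      linear_combination h
    have h3 : (d' : ℤ) * x ^ 2 = p * (z' ^ 2 - e * y' ^ 2) := mul_left_cancel₀ hpZ.ne_zero h2
    have h4 : (p : ℤ) ∣ d' * x ^ 2 := Dvd.intro _ h3.symm
    rcases hpZ.dvd_or_dvd h4 with h5 | h5
    · exact hpd' (Int.natCast_dvd_natCast.1 h5)
    · have h6 := hpZ.dvd_of_dvd_pow h5
      have h7 : IsUnit (p : ℤ) := hc.isUnit_of_dvd' h6 (dvd_mul_right _ _)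
      exact hpZ.not_isUnit h7
  have hz : ¬ (p : ℤ) ∣ z := by
    intro hz
    have h1 : (p : ℤ) ∣ e * y ^ 2 := by
      have h2 : (e : ℤ) * y ^ 2 = z ^ 2 - p * (d' * x ^ 2) := by linear_combination h
      rw [h2]
      exact dvd_sub (dvd_pow hz two_ne_zero) (dvd_mul_right _ _)
    rcases hpZ.dvd_or_dvd h1 with h5 | h5
    · exact hpe (Int.natCast_dvd_natCast.1 h5)
    · exact hy (hpZ.dvd_of_dvd_pow h5)
  have hg : ∀ a : ℤ, ¬ (p : ℤ) ∣ a → a.gcd p = 1 := by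
    intro a ha
    rw [Int.gcd_comm]
    exact (Int.isCoprime_iff_gcd_eq_one.1 ((Prime.coprime_iff_not_dvd hpZ).2 ha))
  have h1 : jacobiSym (e * y ^ 2) p = jacobiSym (z ^ 2) p := by
    apply jacobiSym.mod_left'
    rw [← h]
    have h2 : (p : ℤ) * d' * x ^ 2 + e * y ^ 2 = e * y ^ 2 + p * (d' * x ^ 2) := by ring
    rw [h2, Int.add_mul_emod_self_left]
  rw [jacobiSym.mul_left, jacobiSym.sq_one' (hg y hy), jacobiSym.sq_one' (hg z hz), mul_one] at h1
  exact h1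

theorem conic_sym {d e : ℕ} (hsf : Squarefree (d * e)) (ho : Odd (d * e)) {x y z : ℤ}
    (h : d * x ^ 2 + e * y ^ 2 = z ^ 2) (hc : IsCoprime x y) :
    (∀ p : ℕ, p.Prime → p ∣ d → jacobiSym e p = 1) ∧
    (∀ p : ℕ, p.Prime → p ∣ e → jacobiSym d p = 1) := by
  refine ⟨fun p hp hpd => cosy_aux hsf h hc hp hpd, fun p hp hpe => ?_⟩
  rw [mul_comm] at hsf
  exact cosy_aux hsf (x := y) (y := x) (z := z) (by linear_combination h) hc.symm hp hpe

end Pool.Agent.Work.MP_8efaaa_nt.SR
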