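import Mathlib

/-!
# SR/Dv5 (M): divisors that are `1` modulo `8`

PROOF of `dv5`. `a = 5 (mod 8)` has at most three prime factors, all odd. At most three prime factors and a divisor `1 < d` with `d = 1 (mod 8)`, `d ≠ a`. Suppose `card ≥ 3`: `1`, `d`, `d'` three different divisors that are `1` modulo `8`, both proper. `d`, `d'` are products of prime factors; `e = a / d = 5 (mod 8)`, `e' = a / d' = 5 (mod 8)`, all of `d, e, d', e' > 1`.
If `a` has two prime factors, `d`, `d'` are primes (one prime factor each), `a = d d'` is `1` modulo `8`, contradiction. Three prime factors `p1, p2, p3`: if `d`, `d'` are both primes, `= 1 (mod 8)`, the third is `a / (d d') = 5 (mod 8)`: all primes are `1 (mod 4)`, contradiction to `hr`. If `d = p1` is a prime and `d' = p1 p2` (contains it): `p1 = 1`, `p2 = 1`, `p3 = 5 (mod 8)`, contradiction.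
If `d = p1` and `d' = p2 p3 = 1`: `a = 1 (mod 8)`, contradiction. If both are products of two primes, `d = p1 p2`, `d' = p1 p3` (one common prime factor): `p2 = p1`, `p3 = p1 (mod 8)` (`p^2 = 1 (mod 8)`), `a = p1^3 = p1 (mod 8)`, so all three are `5 (mod 8)`, contradiction to `hr`.
-/

set_option autoImplicit false

namespace Pool.Agent.Work.MP_8efaaa_nt.SR

/-- the product of a subset -/
private def gg (p q r : ℕ) (b : Bool × Bool × Bool) : ℕ :=
  (if b.1 then p else 1) * (if b.2.1 then q else 1) * (if b.2.2 then r else 1)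

set_option maxRecDepth 100000 in
private theorem count8 : ∀ i j k : Fin 4,
    ((2 * i.val + 1) * (2 * j.val + 1) * (2 * k.val + 1)) % 8 = 5 →
    ((2 * i.val + 1) % 4 = 3 ∨ (2 * j.val + 1) % 4 = 3 ∨ (2 * k.val + 1) % 4 = 3) →
    (Finset.univ.filter fun b : Bool × Bool × Bool =>
      gg (2 * i.val + 1) (2 * j.val + 1) (2 * k.val + 1) b % 8 = 1).card ≤ 2 := by
  decide

private theorem gg_mod (p q r : ℕ) (b : Bool × Bool × Bool) :
    gg p q r b % 8 = gg (p % 8) (q % 8) (r % 8) b % 8 := by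
  obtain ⟨b1, b2, b3⟩ := b
  unfold gg
  cases b1 <;> cases b2 <;> cases b3 <;> simp [Nat.mul_mod]

/-- the count for three factors -/
private theorem dv_count {p q r : ℕ} (hp : ∀ d, d ∣ p → d = 1 ∨ d = p)
    (hq : ∀ d, d ∣ q → d = 1 ∨ d = q) (hr : ∀ d, d ∣ r → d = 1 ∨ d = r)
    (h8 : (p * q * r) % 8 = 5) (h3 : ∃ l : ℕ, l.Prime ∧ l ∣ p * q * r ∧ l % 4 = 3) :
    ((p * q * r).divisors.filter (fun d => d % 8 = 1)).card ≤ 2 := by
  have hmod : ((p % 8) * (q % 8) * (r % 8)) % 8 = 5 := by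
    rw [← h8]
    simp [Nat.mul_mod]
  have hpo : p % 2 = 1 := by
    by_contra h
    have h2 : (2 : ℕ) ∣ p * q * r := (Nat.dvd_of_mod_eq_zero (by omega)).mul_right _ |>.mul_right _
    omega
  have hqo : q % 2 = 1 := by
    by_contra h
    have h2 : (2 : ℕ) ∣ p * q * r :=
      ((Nat.dvd_of_mod_eq_zero (by omega : q % 2 = 0)).mul_left p).mul_right r
    omega
  have hro : r % 2 = 1 := by
    by_contra h
    have h2 : (2 : ℕ) ∣ p * q * r :=
      (Nat.dvd_of_mod_eq_zero (by omega : r % 2 = 0)).mul_left (p * q)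
    omega
  have h34 : p % 4 = 3 ∨ q % 4 = 3 ∨ r % 4 = 3 := by
    obtain ⟨l, hl, hld, hl3⟩ := h3
    rcases hl.dvd_mul.1 hld with h | h
    · rcases hl.dvd_mul.1 h with h | h
      · rcases hp l h with h | h
        · exact absurd h hl.one_lt.ne'
        · left
          rw [← h]
          exact hl3
      · rcases hq l h with h | h
        · exact absurd h hl.one_lt.ne'
        · right; left
          rw [← h]
          exact hl3
    · rcases hr l h with h | h
      · exact absurd h hl.one_lt.ne'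
      · right; right
        rw [← h]
        exact hl3
  have hi : ∃ i : Fin 4, p % 8 = 2 * i.val + 1 := ⟨⟨p % 8 / 2, by omega⟩, by
    show p % 8 = 2 * (p % 8 / 2) + 1
    omega⟩
  have hj : ∃ i : Fin 4, q % 8 = 2 * i.val + 1 := ⟨⟨q % 8 / 2, by omega⟩, by
    show q % 8 = 2 * (q % 8 / 2) + 1
    omega⟩
  have hk : ∃ i : Fin 4, r % 8 = 2 * i.val + 1 := ⟨⟨r % 8 / 2, by omega⟩, by
    show r % 8 = 2 * (r % 8 / 2) + 1
    omega⟩
  obtain ⟨i, hi⟩ := hi
  obtain ⟨j, hj⟩ := hj
  obtain ⟨k, hk⟩ := hk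
  have hc := count8 i j k (by rw [← hi, ← hj, ← hk]; exact hmod) (by
    rw [← hi, ← hj, ← hk]
    omega)
  rw [← hi, ← hj, ← hk] at hc
  refine le_trans (le_trans (Finset.card_le_card (t := (Finset.univ.filter
    fun b : Bool × Bool × Bool => gg (p % 8) (q % 8) (r % 8) b % 8 = 1).image (gg p q r)) ?_)
    Finset.card_image_le) hc
  intro d hd
  rw [Finset.mem_filter, Nat.mem_divisors] at hd
  obtain ⟨⟨hd1, -⟩, hd2⟩ := hd
  obtain ⟨u, z, hu, hz, huz⟩ := Nat.dvd_mul.1 hd1
  obtain ⟨x, y, hx, hy, hxy⟩ := Nat.dvd_mul.1 hu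
  rw [Finset.mem_image]
  have key : ∃ b : Bool × Bool × Bool, gg p q r b = d := by
    rcases hp x hx with h1 | h1 <;> rcases hq y hy with h2 | h2 <;>
      rcases hr z hz with h4 | h4 <;> rw [← huz, ← hxy, h1, h2, h4]
    · exact ⟨(false, false, false), rfl⟩
    · exact ⟨(false, false, true), rfl⟩
    · exact ⟨(false, true, false), rfl⟩
    · exact ⟨(false, true, true), rfl⟩
    · exact ⟨(true, false, false), rfl⟩
    · exact ⟨(true, false, true), rfl⟩
    · exact ⟨(true, true, false), rfl⟩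
    · exact ⟨(true, true, true), rfl⟩
  obtain ⟨b, hb⟩ := key
  refine ⟨b, ?_, hb⟩
  rw [Finset.mem_filter]
  refine ⟨Finset.mem_univ _, ?_⟩
  rw [← gg_mod, hb]
  exact hd2

theorem dv5 {a : ℕ} (ha : Squarefree a) (h8 : a % 8 = 5) (hk : a.primeFactors.card ≤ 3)
    (hr : ∃ r : ℕ, r.Prime ∧ r ∣ a ∧ r % 4 = 3) :
    (a.divisors.filter (fun d => d % 8 = 1)).card ≤ 2 := by
  have h1 : ∀ d : ℕ, d ∣ 1 → d = 1 ∨ d = 1 := fun d hd => Or.inl (Nat.dvd_one.1 hd)
  have hprod := Nat.prod_primeFactors_of_squarefree ha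
  have hpr : ∀ p ∈ a.primeFactors, ∀ d, d ∣ p → d = 1 ∨ d = p := fun p hp d hd =>
    (Nat.dvd_prime (Nat.prime_of_mem_primeFactors hp)).1 hd
  rcases (by omega : a.primeFactors.card = 0 ∨ a.primeFactors.card = 1 ∨
      a.primeFactors.card = 2 ∨ a.primeFactors.card = 3) with hc | hc | hc | hc
  · rw [Finset.card_eq_zero] at hc
    rw [hc, Finset.prod_empty] at hprod
    omega
  · obtain ⟨p, hp⟩ := Finset.card_eq_one.1 hc
    rw [hp, Finset.prod_singleton] at hprod
    have h2 := hpr p (by rw [hp]; exact Finset.mem_singleton_self _)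
    have e : p * 1 * 1 = a := by rw [← hprod]; ring
    rw [← e] at h8 hr ⊢
    exact dv_count h2 h1 h1 h8 hr
  · obtain ⟨p, q, hpq, hS⟩ := Finset.card_eq_two.1 hc
    rw [hS, Finset.prod_pair hpq] at hprod
    have h2 := hpr p (by rw [hS]; simp)
    have h3 := hpr q (by rw [hS]; simp)
    have e : p * q * 1 = a := by rw [← hprod]; ring
    rw [← e] at h8 hr ⊢
    exact dv_count h2 h3 h1 h8 hr
  · obtain ⟨p, q, r, hpq, hpr', hqr, hS⟩ := Finset.card_eq_three.1 hc
    have h2 := hpr p (by rw [hS]; simp)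
    have h3 := hpr q (by rw [hS]; simp)
    have h4 := hpr r (by rw [hS]; simp)
    have e : p * q * r = a := by
      rw [← hprod, hS, Finset.prod_insert (by simp [hpq, hpr']), Finset.prod_pair hqr, mul_assoc]
    rw [← e] at h8 hr ⊢
    exact dv_count h2 h3 h4 h8 hr

end Pool.Agent.Work.MP_8efaaa_nt.SR
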