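import Mathlib
import Pool.Agent.Work.MP_8efaaa_nt.Rf.GT
import Pool.Agent.Work.MP_8efaaa_nt.Rf.Gd
import Pool.Agent.Work.MP_8efaaa_nt.Rf.Card
import Pool.Agent.Work.MP_8efaaa_nt.Rf.GTwo
import Pool.Agent.Work.MP_8efaaa_nt.Rf.Conic

/-!
# SR/Rc5: the core of the reflection theorem (without the field `Q(sqrt a)`)

The proof is the one of `Rf/Refl.lean`, stopped before the use of the field `F`.
-/

set_option autoImplicit false

namespace Pool.Agent.Work.MP_8efaaa_nt.SR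

open NumberField Pool.Agent.Work.MP_8efaaa_nt.R Pool.Agent.Work.MP_8efaaa_nt.Rf

universe u

private theorem norm_mod_pow {K : Type u} [Field K] [NumberField K] {s : K} {G : Type*}
    [CommGroup G] {g : Ideal (𝓞 K) → G} (h : GDt s G g) {c : Ideal (𝓞 K)}
    (hc : Ideal.absNorm c % 8 = 1) (j : ℕ) :
    Ideal.absNorm (c ^ j) % 8 = 1 ∧ g (c ^ j) = g c ^ j := by
  induction j with
  | zero =>
    rw [pow_zero, pow_zero, Ideal.one_eq_top, Ideal.absNorm_top, g_top h]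
    exact ⟨rfl, rfl⟩
  | succ j ih =>
    rw [pow_succ, pow_succ, h.mul _ _ ih.1 hc, ih.2]
    refine ⟨?_, rfl⟩
    rw [map_mul, Nat.mul_mod, ih.1, hc]

theorem refl_core {K : Type u} [Field K] [NumberField K] {a : ℕ} {s : K} (hb : Base5 K a s)
    (hno' : ∀ c : Ideal (𝓞 K), Ideal.absNorm c % 8 = 1 → ∃ x y : ℤ, ∃ δ : 𝓞 K,
      algebraMap (𝓞 K) K δ = x + 4 * y * s ∧
      c ^ (Fintype.card (ClassGroup (𝓞 K)) / 2) = Ideal.span {δ} ∧ ¬ e8 (x + 4 * y) = -1)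
    (hDcard : (a.divisors.filter (fun d => d % 8 = 1)).card ≤ 2) :
    ∃ d e : ℕ, d * e = a ∧ d % 8 = 1 ∧ 1 < d ∧ ∃ x y z : ℤ,
      d * x ^ 2 + e * y ^ 2 = z ^ 2 ∧ IsCoprime x y := by
  classical
  obtain ⟨S, hS, -⟩ := exists_S hb
  obtain ⟨G, hGc, g, h⟩ := exists_gd hb
  obtain ⟨hfin, hcard⟩ := card_gd hb h
  obtain ⟨H, hH, -, -⟩ := exists_half hb
  have hhalf : Fintype.card (ClassGroup (𝓞 K)) / 2 = Nat.card H := by omega
  have hG : Nat.card G = 4 * Nat.card H := by omega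
  have htop : Ideal.absNorm (⊤ : Ideal (𝓞 K)) % 8 = 1 := by rw [Ideal.absNorm_top]
  have hone : Good s (1 : 𝓞 K) := by
    have h1 := good_nat s (m := 1) (Or.inl rfl)
    rwa [Nat.cast_one] at h1
  have hall : ∀ x : G, x ^ Nat.card H = 1 := by
    intro x
    obtain ⟨c, hc, rfl⟩ := h.surj x
    obtain ⟨x, y, δ, hδ, hcn, he⟩ := hno' c hc
    rw [hhalf] at hcn
    obtain ⟨hnorm, hgp⟩ := norm_mod_pow h hc (Nat.card H)
    rw [hcn] at hnorm
    have hn2 := absNorm_pq hb (x := δ) (p := x) (q := 4 * y) (by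
      rw [hδ]
      push_cast
      ring)
    have hxo : Odd x := by
      rcases Int.even_or_odd x with hx | hx
      · exfalso
        obtain ⟨u, hu⟩ := hx
        have h5 : ((Ideal.absNorm (Ideal.span {δ}) : ℕ) : ℤ) = 4 * (u ^ 2 + 4 * (a * y ^ 2)) := by
          rw [hn2, hu]
          ring
        omega
      · exact hx
    have he1 : e8 (x + 4 * y) = 1 := by
      unfold e8 at he ⊢
      split_ifs at he ⊢ with h6
      · rfl
      · exact absurd rfl he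
    have hgood : Good s δ := ⟨x, y, hxo, hδ, he1⟩
    have h7 : g (Ideal.span {δ}) = g ⊤ :=
      (h.eq_iff _ _ hnorm htop).2 ⟨1, δ, hone, hgood, by
        rw [Ideal.span_singleton_one, Ideal.top_mul, Ideal.mul_top]⟩
    rw [← hgp, hcn, h7, g_top h]
  have ha0 : a ≠ 0 := by
    have := hb.mod
    rintro rfl
    omega
  set D := a.divisors.filter (fun d => d % 8 = 1) with hD
  have h1D : 1 ∈ D := by
    rw [hD, Finset.mem_filter, Nat.mem_divisors]
    exact ⟨⟨one_dvd a, ha0⟩, rfl⟩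
  have hmemD : ∀ d ∈ D, d ∣ a ∧ d % 8 = 1 := by
    intro d hd
    rw [hD, Finset.mem_filter, Nat.mem_divisors] at hd
    exact ⟨hd.1.1, hd.2⟩
  have hgt : ∀ d ∈ D, d ≠ 1 → 1 < d := by
    intro d hd hd1
    have := (hmemD d hd).2
    omega
  have h2 : Nat.card {x : G // x ^ 2 = 1} ≤ 2 * D.card := card_two hb h
  obtain ⟨hfour, hsq⟩ := gt hG hall (h2.trans (by omega))
  have h9 : 1 < D.card := by omega
  obtain ⟨d, hd, d', hd', hne⟩ := Finset.one_lt_card.1 h9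
  obtain ⟨d0, hd0, hd01⟩ : ∃ d0 ∈ D, d0 ≠ 1 := by
    by_cases h10 : d = 1
    · exact ⟨d', hd', fun h11 => hne (h10.trans h11.symm)⟩
    · exact ⟨d, hd, h10⟩
  obtain ⟨hda, hd8⟩ := hmemD d0 hd0
  obtain ⟨x0, hx0⟩ := hsq _ (g_rI_sq hb hS h hda hd8)
  obtain ⟨b, hb1, rfl⟩ := h.surj x0
  obtain ⟨hbn, hbg⟩ := norm_mod_pow h hb1 2
  have hrn : Ideal.absNorm (rI S d0) % 8 = 1 := by rw [rI_norm hb hS hda, hd8]
  obtain ⟨α, β, hα, hβ, hαβ⟩ := (h.eq_iff _ _ hrn hbn).1 (by rw [hbg, hx0])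
  obtain ⟨e, he⟩ := hda
  obtain ⟨x, y, z, h1, h2, -⟩ := k_conic hb hS he.symm hb1 hα hβ hαβ
  exact ⟨d0, e, he.symm, hd8, hgt d0 hd0 hd01, x, y, z, h1, h2⟩

end Pool.Agent.Work.MP_8efaaa_nt.SR
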