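import Mathlib
import Pool.Agent.Work.MP_8efaaa_nt.SR.CoSy
import Pool.Agent.Work.MP_8efaaa_nt.SR.Rc5
import Pool.Agent.Work.MP_8efaaa_nt.SR.Dv5
import Pool.Agent.Work.MP_8efaaa_nt.Rf.Fin
import Pool.Agent.Work.MP_8efaaa_nt.Rg.Reflb
import Pool.Agent.Work.MP_8efaaa_nt.N5.EMain

/-!
# SR/NC5 (S-M): what holds if `a = 5 (mod 8)` is not congruent

PROOF. `K`, `s`, `hb` from `Rf.exists_base`. (A) All prime factors of `a` are `1 (mod 4)`: for every odd ideal `b` the negation of the hypothesis of `N5.main5b` gives the hypothesis `hno` of `Rg.k_out`; `(dv a).card ≤ 4` (as in `Rg/Reflb.lean`: `a` has at most three prime factors, `a.divisors.card = 2 ^ k ≤ 8`, and `d ↦ a / d` maps the divisors that are `1 (mod 8)`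
injectively to the other ones, `5 (mod 8)`); the first part of `k_out`. (B) Otherwise a prime factor is `3 (mod 4)`: the negation of the hypothesis of `R.main5` is the hypothesis of `refl_core`, `dv5` gives the card. In both cases there are `d`, `e`, `x`, `y`, `z`; `conic_sym`.
-/

set_option autoImplicit false

namespace Pool.Agent.Work.MP_8efaaa_nt.SR

open NumberField Pool.Agent.Work.MP_8efaaa_nt.R Pool.Agent.Work.MP_8efaaa_nt.Rf

private theorem dv_four {a : ℕ} (ha : Squarefree a) (h8 : a % 8 = 5)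
    (hk : a.primeFactors.card ≤ 3) : (Rg.dv a).card ≤ 4 := by
  have ha0 : a ≠ 0 := by
    rintro rfl
    omega
  have h1 : a.divisors.card ≤ 8 := by
    rw [Nat.card_divisors ha0]
    have h2 : ∏ x ∈ a.primeFactors, (a.factorization x + 1) = 2 ^ a.primeFactors.card := by
      apply Finset.prod_eq_pow_card
      intro x hx
      have h3 := ha.natFactorization_le_one x
      have h4 := (Nat.prime_of_mem_primeFactors hx).factorization_pos_of_dvd ha0
        (Nat.dvd_of_mem_primeFactors hx)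
      omega
    rw [h2]
    calc 2 ^ a.primeFactors.card ≤ 2 ^ 3 := Nat.pow_le_pow_right (by norm_num) hk
      _ = 8 := by norm_num
  have h5 : (Rg.dv a).card ≤ (a.divisors.filter (fun d => ¬ d % 8 = 1)).card := by
    apply Finset.card_le_card_of_injOn (fun d => a / d)
    · intro d hd
      have hd' := Finset.mem_coe.1 hd
      unfold Rg.dv at hd'
      rw [Finset.mem_filter, Nat.mem_divisors] at hd'
      obtain ⟨⟨hda, -⟩, hd8⟩ := hd'
      rw [Finset.mem_coe, Finset.mem_filter, Nat.mem_divisors]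
      refine ⟨⟨Nat.div_dvd_of_dvd hda, ha0⟩, ?_⟩
      intro h6
      have h7 := Nat.mul_div_cancel' hda
      have h9 : (d * (a / d)) % 8 = 1 := by rw [Nat.mul_mod, hd8, h6]
      rw [h7] at h9
      omega
    · intro d hd d' hd' h
      have hd1 := Finset.mem_coe.1 hd
      have hd1' := Finset.mem_coe.1 hd'
      unfold Rg.dv at hd1 hd1'
      rw [Finset.mem_filter, Nat.mem_divisors] at hd1 hd1'
      have h6 : a / d = a / d' := h
      have h7 := Nat.mul_div_cancel' hd1.1.1
      have h9 := Nat.mul_div_cancel' hd1'.1.1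
      rw [← h6] at h9
      have h10 : a / d ≠ 0 := by
        intro h11
        rw [h11] at h7
        omega
      exact Nat.eq_of_mul_eq_mul_right (Nat.pos_of_ne_zero h10) (h7.trans h9.symm)
  have h6 := Finset.card_filter_add_card_filter_not (s := a.divisors) (fun d => d % 8 = 1)
  have h7 : (Rg.dv a).card = (a.divisors.filter (fun d => d % 8 = 1)).card := rfl
  omega

theorem nc5 {a : ℕ} (ha : Squarefree a) (h8 : a % 8 = 5) (hk : a.primeFactors.card ≤ 3)
    (hnc : ¬ IsCongruent a) :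
    ∃ d e : ℕ, d * e = a ∧ d % 8 = 1 ∧ 1 < d ∧
      (∀ p : ℕ, p.Prime → p ∣ d → jacobiSym e p = 1) ∧
      (∀ p : ℕ, p.Prime → p ∣ e → jacobiSym d p = 1) := by
  have hodd : Odd a := Nat.odd_iff.2 (by omega)
  suffices H : ∃ d e : ℕ, d * e = a ∧ d % 8 = 1 ∧ 1 < d ∧ ∃ x y z : ℤ,
      d * x ^ 2 + e * y ^ 2 = z ^ 2 ∧ IsCoprime x y by
    obtain ⟨d, e, hde, hd8, hd1, x, y, z, h1, h2⟩ := H
    subst hde
    obtain ⟨h3, h4⟩ := conic_sym ha hodd h1 h2
    exact ⟨d, e, rfl, hd8, hd1, h3, h4⟩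
  obtain ⟨K, _, _, s, hb⟩ := exists_base ha h8
  by_cases hr : ∃ r : ℕ, r.Prime ∧ r ∣ a ∧ r % 4 = 3
  · refine refl_core hb ?_ (dv5 ha h8 hk hr)
    intro c hc
    by_contra hcon
    apply hnc
    refine main5 hb hc fun x y δ h1 h2 => ?_
    by_contra h3
    exact hcon ⟨x, y, δ, h1, h2, h3⟩
  · have hq : ∀ q : ℕ, q.Prime → q ∣ a → q % 4 = 1 := by
      intro q hq hqa
      have h5 : q % 4 ≠ 3 := fun h => hr ⟨q, hq, hqa, h⟩
      have h6 : Odd q := Odd.of_dvd_nat hodd hqa
      rw [Nat.odd_iff] at h6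
      omega
    refine (Rg.k_out hb hq ?_ ?_).1
    · intro b hbo
      by_contra hcon
      apply hnc
      refine N5.main5b hb hbo fun x y δ h1 h2 => ?_
      by_contra h3
      exact hcon ⟨x, y, δ, h1, h2, h3⟩
    · exact dv_four ha h8 hk

end Pool.Agent.Work.MP_8efaaa_nt.SR
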