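import Mathlib
import Pool.Agent.Work.MP_8efaaa_nt.K7.Defs
import Pool.Agent.Work.MP_8efaaa_nt.K7.ARs
import Pool.Agent.Work.MP_8efaaa_nt.K7.ATu
import Pool.Agent.Work.MP_8efaaa_nt.K7.GRm
import Pool.Agent.Work.MP_8efaaa_nt.K7.GAm

/-!
# SR/Amb7: classes of order two

The first part is copied from the private lemmas of `M7/GTw.lean`.
-/

set_option autoImplicit false

namespace Pool.Agent.Work.MP_8efaaa_nt.SR

open IsDedekindDomain NumberField Pool.Agent.Work.MP_787500_nt.HC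
open Pool.Agent.Work.MP_8efaaa_nt.T Pool.Agent.Work.MP_8efaaa_nt.R
open Pool.Agent.Work.MP_8efaaa_nt.N5 Pool.Agent.Work.MP_8efaaa_nt.N7
open Pool.Agent.Work.MP_8efaaa_nt.K7
open scoped nonZeroDivisors

variable {K : Type*} [Field K] [NumberField K] {a : ℕ} {s : K} {S : 𝓞 K}

private theorem amb_S2 (hb : Base K a s) (hS : algebraMap (𝓞 K) K S = s) :
    S ^ 2 = -(a : 𝓞 K) := by
  have hinj : Function.Injective (algebraMap (𝓞 K) K) := RingOfIntegers.coe_injective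
  apply hinj
  rw [map_pow, hS, hb.sq, map_neg, map_natCast]

private theorem amb_S0 (hb : Base K a s) (hS : algebraMap (𝓞 K) K S = s) : S ≠ 0 := by
  intro h0
  have h1 := amb_S2 hb hS
  rw [h0, zero_pow two_ne_zero, zero_eq_neg, Nat.cast_eq_zero] at h1
  exact hb.sf.ne_zero h1

/-- an ideal stable under the conjugation is an integer times a ramified ideal -/
private theorem amb_stable (hb : Base K a s) (hS : algebraMap (𝓞 K) K S = s)
    (τ : 𝓞 K ≃+* 𝓞 K) (hτ : τ S = -S) {J : Ideal (𝓞 K)} (hJ0 : J ≠ ⊥)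
    (hJ : ∀ x ∈ J, τ x ∈ J) :
    ∃ (r : 𝓞 K) (d : ℕ), r ≠ 0 ∧ d ∣ a ∧ J = Ideal.span {r} * K6.r6 S d := by
  obtain ⟨W, k, hW, hWk, hx⟩ := Qd.exists_W hb.dim hb.sq hb.sf hb.mod
  have hinj : Function.Injective (algebraMap (𝓞 K) K) := RingOfIntegers.coe_injective
  have hW' : 2 * W = 1 + S := by
    apply hinj
    rw [map_mul, map_ofNat, hW, map_add, map_one, hS]
  have hS2 : S ^ 2 = -(a : 𝓞 K) := amb_S2 hb hS
  have h20 : (2 : 𝓞 K) ≠ 0 := two_ne_zero
  have hσW : τ W = 1 - W := by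
    apply mul_left_cancel₀ h20
    have h1 : τ (2 * W) = 1 - S := by rw [hW', map_add, map_one, hτ]; ring
    rw [map_mul, map_ofNat] at h1
    rw [h1]
    linear_combination hW'
  obtain ⟨x0, hx0J, hx00⟩ := Submodule.exists_mem_ne_zero_of_ne_bot hJ0
  -- the ideal of the coefficients of W
  let B : Ideal ℤ :=
    { carrier := {b | ∃ a : ℤ, (a : 𝓞 K) + b * W ∈ J}
      add_mem' := by
        rintro b b' ⟨a, ha⟩ ⟨a', ha'⟩
        refine ⟨a + a', ?_⟩
        have := J.add_mem ha ha'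
        convert this using 1
        push_cast
        ring
      zero_mem' := ⟨0, by simp⟩
      smul_mem' := by
        rintro c b ⟨a, ha⟩
        refine ⟨c * a, ?_⟩
        have := J.mul_mem_left (c : 𝓞 K) ha
        convert this using 1
        rw [smul_eq_mul]
        push_cast
        ring }
  obtain ⟨r, hr⟩ := (IsPrincipalIdealRing.principal B).principal
  have hmulW : ∀ a b : ℤ, (a : 𝓞 K) + b * W ∈ J →
      ((-(2 * k * b) : ℤ) : 𝓞 K) + ((a + b : ℤ) : 𝓞 K) * W ∈ J := by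
    intro a b hab
    have h1 := J.mul_mem_right W hab
    convert h1 using 1
    push_cast
    linear_combination (b : 𝓞 K) * hWk
  have hdvd : ∀ a b : ℤ, (a : 𝓞 K) + b * W ∈ J → r ∣ b ∧ r ∣ a := by
    intro a b hab
    have h1 : b ∈ B := ⟨a, hab⟩
    have h2 : a + b ∈ B := ⟨_, hmulW a b hab⟩
    rw [hr] at h1 h2
    obtain ⟨c, hc⟩ := Ideal.mem_span_singleton'.1 h1
    obtain ⟨d, hd⟩ := Ideal.mem_span_singleton'.1 h2
    exact ⟨⟨c, by rw [← hc]; ring⟩, ⟨d - c, by linear_combination hc - hd⟩⟩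
  have hr0 : r ≠ 0 := by
    rintro rfl
    obtain ⟨a, b, rfl⟩ := hx x0
    obtain ⟨h1, h2⟩ := hdvd a b hx0J
    rw [zero_dvd_iff] at h1 h2
    apply hx00
    rw [h1, h2]
    simp
  have hr0' : (r : 𝓞 K) ≠ 0 := by exact_mod_cast hr0
  obtain ⟨a0, ha0⟩ : ∃ a : ℤ, (a : 𝓞 K) + r * W ∈ J := by
    have : r ∈ B := by
      rw [hr]
      exact Ideal.mem_span_singleton_self r
    exact this
  obtain ⟨a', rfl⟩ := (hdvd _ _ ha0).2
  have hJ'S : (r : 𝓞 K) * S ∈ J := by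
    have h1 := J.sub_mem ha0 (hJ _ ha0)
    rw [map_add, map_mul, hσW, map_intCast, map_intCast] at h1
    convert h1 using 1
    push_cast
    linear_combination -(r : 𝓞 K) * hW'
  have haJ : (r : 𝓞 K) * a ∈ J := by
    have h1 := J.mul_mem_right (-S) hJ'S
    convert h1 using 1
    linear_combination (r : 𝓞 K) * hS2
  -- the integers of the divided ideal
  let D : Ideal ℤ :=
    { carrier := {n | (r : 𝓞 K) * n ∈ J}
      add_mem' := by
        intro b b' hb1 hb2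
        have := J.add_mem hb1 hb2
        show (r : 𝓞 K) * ((b + b' : ℤ) : 𝓞 K) ∈ J
        convert this using 1
        push_cast
        ring
      zero_mem' := by
        show (r : 𝓞 K) * ((0 : ℤ) : 𝓞 K) ∈ J
        simp
      smul_mem' := by
        intro c b hb1
        have := J.mul_mem_left (c : 𝓞 K) hb1
        show (r : 𝓞 K) * ((c • b : ℤ) : 𝓞 K) ∈ J
        convert this using 1
        rw [smul_eq_mul]
        push_cast
        ring }
  have hDmem : ∀ n : ℤ, n ∈ D ↔ (r : 𝓞 K) * n ∈ J := fun n => Iff.rfl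
  obtain ⟨d0, hd0⟩ := (IsPrincipalIdealRing.principal D).principal
  have hDd : ∀ n : ℤ, n ∈ D → (d0.natAbs : ℤ) ∣ n := by
    intro n hn
    rw [hd0] at hn
    obtain ⟨c, hc⟩ := Ideal.mem_span_singleton'.1 hn
    exact Int.natAbs_dvd.2 ⟨c, by rw [← hc]; ring⟩
  have hdJ : (r : 𝓞 K) * ((d0.natAbs : ℕ) : 𝓞 K) ∈ J := by
    have h1 : ((d0.natAbs : ℕ) : ℤ) ∈ D := by
      rw [hd0]
      refine Ideal.mem_span_singleton.2 ?_
      exact Int.dvd_natAbs.2 dvd_rfl
    have h2 := (hDmem _).1 h1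
    rwa [Int.cast_natCast] at h2
  have hda : d0.natAbs ∣ a := by
    have h1 := hDd (a : ℤ) ((hDmem _).2 (by rw [Int.cast_natCast]; exact haJ))
    exact Int.natCast_dvd_natCast.1 h1
  refine ⟨r, d0.natAbs, hr0', hda, le_antisymm ?_ ?_⟩
  · rw [Ideal.le_span_singleton_mul_iff]
    intro y hyJ
    obtain ⟨α, β, rfl⟩ := hx y
    obtain ⟨⟨b1, rfl⟩, ⟨a1, rfl⟩⟩ := hdvd α β hyJ
    refine ⟨(a1 : 𝓞 K) + b1 * W, ?_, ?_⟩
    · have h1 : 2 * ((a1 : 𝓞 K) + b1 * W) = ((2 * a1 + b1 : ℤ) : 𝓞 K) + (b1 : 𝓞 K) * S := by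
        push_cast
        linear_combination (b1 : 𝓞 K) * hW'
      rw [mem_r7 hb hS hda h1]
      apply hDd
      rw [hDmem]
      have h2 := J.sub_mem (J.mul_mem_left 2 hyJ) (J.mul_mem_left (b1 : 𝓞 K) hJ'S)
      convert h2 using 1
      push_cast
      linear_combination -(r : 𝓞 K) * b1 * hW'
    · push_cast
      ring
  · rw [Ideal.span_singleton_mul_le_iff]
    intro z hz
    unfold K6.r6 at hz
    rw [Ideal.mem_span_pair] at hz
    obtain ⟨u, w, rfl⟩ := hz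
    have h1 := J.add_mem (J.mul_mem_left u hdJ) (J.mul_mem_left w hJ'S)
    convert h1 using 1
    ring

private theorem amb_cl_span_mul {c : 𝓞 K} (hc : c ≠ 0) {I : Ideal (𝓞 K)} (hI : I ≠ ⊥) :
    cl (idl (Ideal.span {c} * I)) = cl (idl I) := by
  have hc' : algebraMap (𝓞 K) K c ≠ 0 := by
    rw [Ne, map_eq_zero_iff _ (FaithfulSMul.algebraMap_injective (𝓞 K) K)]
    exact hc
  have hc1 : Ideal.span {c} ≠ ⊥ := by
    rw [Ne, Ideal.span_singleton_eq_bot]
    exact hc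
  rw [idl_mul hc1 hI, idl_span hc hc']
  exact (cl_eq_iff.2 ⟨_, rfl⟩).symm

private theorem amb_idl_inj {b c : Ideal (𝓞 K)} (hb : b ≠ ⊥) (hc : c ≠ ⊥)
    (h : (idl b : Idl K) = idl c) : b = c := by
  have h1 := congrArg (fun u : Idl K => (u : FractionalIdeal (𝓞 K)⁰ K)) h
  simp only [idl_ne hb, idl_ne hc] at h1
  exact FractionalIdeal.coeIdeal_injective h1

private theorem amb_norm (hb : Base K a s) (hS : algebraMap (𝓞 K) K S = s) {τ : 𝓞 K ≃+* 𝓞 K}
    (hτ : τ S = -S) (x : 𝓞 K) :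
    x * τ x = ((Ideal.absNorm (Ideal.span {x}) : ℕ) : 𝓞 K) := by
  obtain ⟨p, q, hpq, -⟩ := coords7 hb hS x
  have h1 := norm_half7' hb hS hpq
  have h2 : 2 * τ x = p - q * S := by
    have h3 := congrArg τ hpq
    rw [map_mul, map_ofNat, map_add, map_mul, hτ, map_intCast, map_intCast] at h3
    rw [h3]
    ring
  have h4 : (4 : 𝓞 K) * ((Ideal.absNorm (Ideal.span {x}) : ℕ) : 𝓞 K) = p ^ 2 + a * q ^ 2 := by
    exact_mod_cast congrArg (Int.cast (R := 𝓞 K)) h1
  have h40 : (4 : 𝓞 K) ≠ 0 := by norm_num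
  apply mul_left_cancel₀ h40
  rw [h4]
  linear_combination (2 * τ x) * hpq + ((p : 𝓞 K) + q * S) * h2 - (q : 𝓞 K) ^ 2 * amb_S2 hb hS

private theorem amb_r_ne (hb : Base K a s) (hS : algebraMap (𝓞 K) K S = s) {d : ℕ} (hd : d ∣ a) :
    K6.r6 S d ≠ ⊥ := by
  intro h0
  have h1 := norm_r7 hb hS hd
  rw [h0, Ideal.absNorm_bot] at h1
  subst h1
  exact hb.sf.ne_zero (zero_dvd_iff.1 hd)

private theorem amb_cl_prin {c : 𝓞 K} (hc : c ≠ 0) : cl (idl (Ideal.span {c}) : Idl K) = 1 := by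
  have hc' : algebraMap (𝓞 K) K c ≠ 0 := by
    rw [Ne, map_eq_zero_iff _ (FaithfulSMul.algebraMap_injective (𝓞 K) K)]
    exact hc
  rw [idl_span hc hc', ← cl_one, eq_comm, cl_eq_iff]
  exact ⟨_, (mul_one _).symm⟩

private theorem amb_cl_sq (hb : Base K a s) (hS : algebraMap (𝓞 K) K S = s) {d : ℕ} (hd : d ∣ a) :
    cl (idl (K6.r6 S d)) * cl (idl (K6.r6 S d)) = 1 := by
  have h0 := amb_r_ne hb hS hd
  rw [← cl_mul, ← idl_mul h0 h0, r7_sq hb hS hd]
  apply amb_cl_prin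
  rw [Ne, Nat.cast_eq_zero]
  rintro rfl
  exact hb.sf.ne_zero (zero_dvd_iff.1 hd)

private theorem amb_exists_div (hb : Base K a s) (hS : algebraMap (𝓞 K) K S = s)
    (C : ClassGroup (𝓞 K)) (hC : C ^ 2 = 1) :
    ∃ d : ℕ, d ∣ a ∧ C = cl (idl (K6.r6 S d)) := by
  obtain ⟨τ, hτ⟩ := exists_tau7 hb hS
  obtain ⟨I, hI0, -, hIC⟩ := exists_rep (N := 1) one_ne_zero C
  have hττ := tau_tau7 hb hS hτ
  have hnI := (norm_cj7 hb hS hτ I).1
  have hI'0 : cj τ I ≠ ⊥ := by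
    intro h0
    rw [h0, Ideal.absNorm_bot] at hnI
    exact hI0 (Ideal.absNorm_eq_zero_iff.1 hnI.symm)
  have hcl : cl (idl (cj τ I)) = cl (idl I) := by
    rw [cl_cj7 hb hS hτ hI0, hIC]
    rw [pow_two] at hC
    exact inv_eq_of_mul_eq_one_right hC
  obtain ⟨x0, hx0⟩ := cl_eq_iff.1 hcl
  obtain ⟨x, y, hy, hxy⟩ := IsFractionRing.div_surjective (A := 𝓞 K) (x0 : K)
  have hinj := FaithfulSMul.algebraMap_injective (𝓞 K) K
  have hy0 : y ≠ 0 := nonZeroDivisors.ne_zero hy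
  have hy0' : algebraMap (𝓞 K) K y ≠ 0 := by
    rw [Ne, map_eq_zero_iff _ hinj]
    exact hy0
  have hx0' : algebraMap (𝓞 K) K x ≠ 0 := by
    intro h0
    rw [h0, zero_div] at hxy
    exact x0.ne_zero hxy.symm
  have hx00 : x ≠ 0 := by
    rintro rfl
    exact hx0' (map_zero _)
  have hspan0 : ∀ z : 𝓞 K, z ≠ 0 → Ideal.span {z} ≠ ⊥ := by
    intro z hz
    rw [Ne, Ideal.span_singleton_eq_bot]
    exact hz
  -- (y) I = (x) I'
  have hxy' : Ideal.span {y} * I = Ideal.span {x} * cj τ I := by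
    refine amb_idl_inj (mul_ne_zero (hspan0 y hy0) hI0) (mul_ne_zero (hspan0 x hx00) hI'0) ?_
    rw [idl_mul (hspan0 y hy0) hI0, idl_mul (hspan0 x hx00) hI'0, idl_span hy0 hy0',
      idl_span hx00 hx0', hx0, ← mul_assoc]
    congr 1
    unfold prin
    rw [← map_mul]
    congr 1
    apply Units.ext
    rw [Units.val_mul, Units.val_mk0, Units.val_mk0, ← hxy]
    field_simp
  have hnormeq : x * τ x = y * τ y := by
    rw [amb_norm hb hS hτ, amb_norm hb hS hτ]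
    have h1 := congrArg Ideal.absNorm hxy'
    rw [map_mul, map_mul, hnI] at h1
    have h2 : Ideal.absNorm I ≠ 0 := fun h => hI0 (Ideal.absNorm_eq_zero_iff.1 h)
    rw [Nat.eq_of_mul_eq_mul_right (Nat.pos_of_ne_zero h2) h1]
  have hσ0 : ∀ z : 𝓞 K, z ≠ 0 → τ z ≠ 0 := fun z hz h => hz (by
    have := congrArg τ h
    rwa [hττ, map_zero] at this)
  obtain ⟨z, hz0, hz⟩ : ∃ z : 𝓞 K, z ≠ 0 ∧ τ z * y = z * τ x := by
    by_cases hxy0 : x + y = 0
    · have hyx : y = -x := by linear_combination hxy0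
      refine ⟨x * S, mul_ne_zero hx00 (amb_S0 hb hS), ?_⟩
      rw [map_mul, hτ, hyx]
      ring
    · refine ⟨x + y, hxy0, ?_⟩
      rw [map_add]
      linear_combination -hnormeq
  have hc0 : z * τ x ≠ 0 := mul_ne_zero hz0 (hσ0 x hx00)
  have hspanσ : ∀ z : 𝓞 K, cj τ (Ideal.span {z}) = Ideal.span {τ z} := by
    intro z
    unfold cj
    rw [Ideal.map_span, Set.image_singleton]
    rfl
  have hJ0 : Ideal.span {z * τ x} * I ≠ ⊥ := mul_ne_zero (hspan0 _ hc0) hI0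
  have hcjJ : cj τ (Ideal.span {z * τ x} * I) = Ideal.span {z * τ x} * I := by
    rw [cj_mul7, hspanσ, map_mul, hττ, ← hz, ← Ideal.span_singleton_mul_span_singleton,
      ← Ideal.span_singleton_mul_span_singleton, mul_assoc, mul_assoc, hxy']
  obtain ⟨r, d, hr, hd, hJ⟩ := amb_stable hb hS τ hτ hJ0 (fun t ht => by
    have h1 : τ t ∈ cj τ (Ideal.span {z * τ x} * I) := by
      unfold cj
      exact Ideal.mem_map_of_mem (τ : 𝓞 K →+* 𝓞 K) ht
    rwa [hcjJ] at h1)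
  have hCd : C = cl (idl (K6.r6 S d)) := by
    rw [← hIC, ← amb_cl_span_mul hc0 hI0, hJ, amb_cl_span_mul hr (amb_r_ne hb hS hd)]
  exact ⟨d, hd, hCd⟩

/-- `[r_d] = [r_e]` for `d e = a` -/
theorem amb_eq (hb : Base K a s) (hS : algebraMap (𝓞 K) K S = s) {d e : ℕ} (hde : d * e = a) :
    cl (idl (K6.r6 S d)) = cl (idl (K6.r6 S e)) := by
  have hd : d ∣ a := ⟨e, hde.symm⟩
  have he : e ∣ a := ⟨d, by rw [mul_comm]; exact hde.symm⟩
  have h1 : cl (idl (K6.r6 S d)) * cl (idl (K6.r6 S e)) = 1 := by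
    rw [← cl_mul, ← idl_mul (amb_r_ne hb hS hd) (amb_r_ne hb hS he),
      ← r7_mul hb hS (by rw [hde]), hde, r7_all hb hS]
    exact amb_cl_prin (amb_S0 hb hS)
  exact mul_right_cancel (h1.trans (amb_cl_sq hb hS he).symm)

/-- classes of order two -/
theorem amb7 (hb : Base K a s) (hS : algebraMap (𝓞 K) K S = s) (C : ClassGroup (𝓞 K))
    (hC : C ^ 2 = 1) : ∃ d e : ℕ, d * e = a ∧ C = cl (idl (K6.r6 S d)) ∧
      C = cl (idl (K6.r6 S e)) ∧ (C ≠ 1 → 1 < d ∧ 1 < e) := by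
  obtain ⟨d, hd, hCd⟩ := amb_exists_div hb hS C hC
  obtain ⟨e, he⟩ := hd
  have hCe : C = cl (idl (K6.r6 S e)) := by rw [hCd]; exact amb_eq hb hS he.symm
  have h1 : K6.r6 S 1 = ⊤ := by
    unfold K6.r6
    rw [Ideal.eq_top_iff_one, Nat.cast_one]
    exact Ideal.subset_span (Set.mem_insert _ _)
  have h2 : cl (idl (K6.r6 S 1)) = 1 := by
    rw [h1, ← Ideal.span_singleton_one]
    exact amb_cl_prin one_ne_zero
  have ha0 : a ≠ 0 := hb.sf.ne_zero
  refine ⟨d, e, he.symm, hCd, hCe, fun hC1 => ⟨?_, ?_⟩⟩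
  · have hd0 : d ≠ 0 := by
      rintro rfl
      rw [zero_mul] at he
      exact ha0 he
    have hd1 : d ≠ 1 := by
      rintro rfl
      exact hC1 (hCd.trans h2)
    omega
  · have hd0 : e ≠ 0 := by
      rintro rfl
      rw [mul_zero] at he
      exact ha0 he
    have hd1 : e ≠ 1 := by
      rintro rfl
      exact hC1 (hCe.trans h2)
    omega

/-- the number of the classes of order two -/
theorem amb_card (hb : Base K a s) :
    Nat.card {C : ClassGroup (𝓞 K) // C ^ 2 = 1} ≤ 2 ^ (a.primeFactors.card - 1) := by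
  classical
  obtain ⟨S, hS⟩ := exists_S7 hb
  have ha0 : a ≠ 0 := hb.sf.ne_zero
  have ha1 : a ≠ 1 := by
    have := hb.mod
    rintro rfl
    omega
  obtain ⟨p, hp, hpa⟩ := Nat.exists_prime_and_dvd ha1
  obtain ⟨b, hpb⟩ := hpa
  have hb0 : b ≠ 0 := by
    rintro rfl
    rw [mul_zero] at hpb
    exact ha0 hpb
  have hcop : Nat.Coprime p b := Nat.coprime_of_squarefree_mul (by rw [← hpb]; exact hb.sf)
  have hsfb : Squarefree b := hb.sf.squarefree_of_dvd ⟨p, by rw [mul_comm]; exact hpb⟩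
  have hsurj : Function.Surjective (fun d : b.divisors =>
      (⟨cl (idl (K6.r6 S (d : ℕ))), by
        have hd : (d : ℕ) ∣ a := (Nat.dvd_of_mem_divisors d.2).trans
          ⟨p, by rw [mul_comm]; exact hpb⟩
        rw [pow_two]
        exact amb_cl_sq hb hS hd⟩ : {C : ClassGroup (𝓞 K) // C ^ 2 = 1})) := by
    rintro ⟨C, hC⟩
    obtain ⟨d, e, hde, hCd, hCe, -⟩ := amb7 hb hS C hC
    have h1 : p ∣ d ∨ p ∣ e := by
      apply (Nat.Prime.dvd_mul hp).1
      rw [hde, hpb]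
      exact dvd_mul_right _ _
    rcases h1 with ⟨d', hd'⟩ | ⟨e', he'⟩
    · refine ⟨⟨e, ?_⟩, Subtype.ext hCe.symm⟩
      rw [Nat.mem_divisors]
      refine ⟨⟨d', ?_⟩, hb0⟩
      apply Nat.eq_of_mul_eq_mul_left hp.pos
      rw [← hpb, ← hde, hd']
      ring
    · refine ⟨⟨d, ?_⟩, Subtype.ext hCd.symm⟩
      rw [Nat.mem_divisors]
      refine ⟨⟨e', ?_⟩, hb0⟩
      apply Nat.eq_of_mul_eq_mul_left hp.pos
      rw [← hpb, ← hde, he']
      ring
  have hle := Nat.card_le_card_of_surjective _ hsurj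
  refine hle.trans ?_
  have h2 : Nat.card b.divisors = 2 ^ b.primeFactors.card := by
    rw [Nat.card_eq_fintype_card, Fintype.card_coe, Nat.card_divisors hb0]
    apply Finset.prod_eq_pow_card
    intro x hx
    have h3 := hsfb.natFactorization_le_one x
    have h4 := (Nat.prime_of_mem_primeFactors hx).factorization_pos_of_dvd hb0
      (Nat.dvd_of_mem_primeFactors hx)
    omega
  have h3 : a.primeFactors.card = 1 + b.primeFactors.card := by
    rw [hpb, hcop.primeFactors_mul, Finset.card_union_of_disjoint hcop.disjoint_primeFactors,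
      hp.primeFactors, Finset.card_singleton]
  rw [h2, h3, Nat.add_sub_cancel_left]

end Pool.Agent.Work.MP_8efaaa_nt.SR
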