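import Mathlib
import Pool.Agent.Work.MP_8efaaa_nt.K7.Defs
import Pool.Agent.Work.MP_8efaaa_nt.K7.ARs
import Pool.Agent.Work.MP_8efaaa_nt.K7.ATu
import Pool.Agent.Work.MP_8efaaa_nt.K7.GAm
import Pool.Agent.Work.MP_8efaaa_nt.N7.ESub
import Pool.Agent.Work.MP_8efaaa_nt.N7.IBas

/-!
# SR/Chi7: genus characters of classes

Copied from the private lemmas of `M7/GSq3.lean`.
-/

set_option autoImplicit false

namespace Pool.Agent.Work.MP_8efaaa_nt.SR

open IsDedekindDomain NumberField Pool.Agent.Work.MP_787500_nt.HC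
open Pool.Agent.Work.MP_8efaaa_nt.T Pool.Agent.Work.MP_8efaaa_nt.R
open Pool.Agent.Work.MP_8efaaa_nt.N5 Pool.Agent.Work.MP_8efaaa_nt.N7
open Pool.Agent.Work.MP_8efaaa_nt.K7
open scoped nonZeroDivisors

variable {K : Type*} [Field K] [NumberField K] {a : ℕ} {s : K} {S : 𝓞 K}

private theorem chi7_half (hb : Base K a s) {δ : 𝓞 K} {m n : ℤ}
    (hδ : 2 * algebraMap (𝓞 K) K δ = m + n * s) :
    4 * (Ideal.absNorm (Ideal.span {δ}) : ℤ) = m ^ 2 + a * n ^ 2 := by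
  have ha0 : 0 < a := by
    have := hb.mod
    omega
  obtain ⟨σ, hσ⟩ := Pool.Agent.Work.MP_787500_nt.Quad.exists_conj hb.dim hb.sq ha0
  let τ : K ≃ₐ[ℚ] K := AlgEquiv.ofRingEquiv (f := σ) (fun r => by simp)
  have hτ : ∀ z, τ z = σ z := fun z => rfl
  have h1 : Algebra.norm ℚ (τ (algebraMap (𝓞 K) K δ)) = Algebra.norm ℚ (algebraMap (𝓞 K) K δ) :=
    Algebra.norm_eq_of_algEquiv τ _
  have h2 : (2 * algebraMap (𝓞 K) K δ) * (2 * τ (algebraMap (𝓞 K) K δ)) =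
      algebraMap ℚ K ((m ^ 2 + a * n ^ 2 : ℤ) : ℚ) := by
    have h3 : 2 * τ (algebraMap (𝓞 K) K δ) = τ (2 * algebraMap (𝓞 K) K δ) := by
      rw [map_mul, map_ofNat]
    rw [h3, hτ, hδ, map_add, map_mul, hσ, map_intCast, map_intCast, map_intCast]
    push_cast
    linear_combination -(n : K) ^ 2 * hb.sq
  have h2' : algebraMap (𝓞 K) K δ * τ (algebraMap (𝓞 K) K δ) =
      algebraMap ℚ K (((m ^ 2 + a * n ^ 2 : ℤ) : ℚ) / 4) := by
    rw [map_div₀, ← h2, map_ofNat]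
    field_simp
    ring
  have h3 := congrArg (Algebra.norm ℚ) h2'
  rw [map_mul, h1, Algebra.norm_algebraMap, hb.dim] at h3
  have h4 : (Algebra.norm ℚ (algebraMap (𝓞 K) K δ)) = ((Algebra.norm ℤ δ : ℤ) : ℚ) :=
    (Algebra.coe_norm_int δ).symm
  rw [h4] at h3
  have h5 : (4 * Algebra.norm ℤ δ) ^ 2 = (m ^ 2 + a * n ^ 2) ^ 2 := by
    have : (4 * ((Algebra.norm ℤ δ : ℤ) : ℚ)) ^ 2 = ((m ^ 2 + a * n ^ 2 : ℤ) : ℚ) ^ 2 := by
      have h6 : (4 * ((Algebra.norm ℤ δ : ℤ) : ℚ)) ^ 2 =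
          16 * (((Algebra.norm ℤ δ : ℤ) : ℚ) * ((Algebra.norm ℤ δ : ℤ) : ℚ)) := by ring
      rw [h6, h3]
      ring
    exact_mod_cast this
  rw [Ideal.absNorm_span_singleton, Int.natCast_natAbs]
  have h6 : (0 : ℤ) ≤ m ^ 2 + a * n ^ 2 := by positivity
  have h7 : |4 * Algebra.norm ℤ δ| = |m ^ 2 + a * n ^ 2| := by
    rw [← sq_eq_sq_iff_abs_eq_abs, h5]
  rw [abs_mul, abs_of_nonneg h6] at h7
  simpa using h7

private theorem chi7_princ {I : Ideal (𝓞 K)} (hI : I ≠ ⊥) (h : cl (idl I) = 1) :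
    ∃ x : 𝓞 K, I = Ideal.span {x} := by
  have h1 : cl (1 : Idl K) = cl (idl I) := by rw [h, cl_one]
  obtain ⟨x, hx⟩ := cl_eq_iff.1 h1
  rw [mul_one] at hx
  have h2 := congrArg (fun J : Idl K => (J : FractionalIdeal (𝓞 K)⁰ K)) hx
  rw [idl_ne hI] at h2
  have h3 : (x : K) ∈ (I : FractionalIdeal (𝓞 K)⁰ K) := by
    rw [h2]
    unfold prin
    rw [coe_toPrincipalIdeal]
    exact FractionalIdeal.mem_spanSingleton_self _ _
  obtain ⟨y, hy, hyx⟩ := (FractionalIdeal.mem_coeIdeal _).1 h3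
  refine ⟨y, ?_⟩
  have h4 : (I : FractionalIdeal (𝓞 K)⁰ K) =
      ((Ideal.span {y} : Ideal (𝓞 K)) : FractionalIdeal (𝓞 K)⁰ K) := by
    rw [h2, FractionalIdeal.coeIdeal_span_singleton, hyx]
    unfold prin
    rw [coe_toPrincipalIdeal]
  exact FractionalIdeal.coeIdeal_injective h4

omit [NumberField K] in
private theorem chi7_jac {n p : ℕ} (hp : p.Prime) (h : Nat.Coprime n p) :
    jacobiSym n p = 1 ∨ jacobiSym n p = -1 := by
  have : NeZero p := ⟨hp.ne_zero⟩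
  rcases jacobiSym.trichotomy n p with e1 | e1 | e1
  · exfalso
    rw [jacobiSym.eq_zero_iff_not_coprime] at e1
    apply e1
    rw [Int.gcd_natCast_natCast]
    exact h
  · exact Or.inl e1
  · exact Or.inr e1

/-- the symbol depends only on the class -/
theorem chi7 (hb : Base K a s) (hS : algebraMap (𝓞 K) K S = s) {p : ℕ} (hp : p.Prime)
    (hp2 : p ≠ 2) (hpa : p ∣ a) {c c' : Ideal (𝓞 K)} (hc : c ≠ ⊥) (hc' : c' ≠ ⊥)
    (h1 : Nat.Coprime (Ideal.absNorm c) p) (h1' : Nat.Coprime (Ideal.absNorm c') p)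
    (h : cl (idl c) = cl (idl c')) :
    jacobiSym (Ideal.absNorm c) p = jacobiSym (Ideal.absNorm c') p := by
  obtain ⟨τ, hτ⟩ := exists_tau7 hb hS
  have hn := (norm_cj7 hb hS hτ c').1
  have hc'' : cj τ c' ≠ ⊥ := by
    intro h0
    rw [h0, Ideal.absNorm_bot] at hn
    exact hc' (Ideal.absNorm_eq_zero_iff.1 hn.symm)
  have hne : c * cj τ c' ≠ ⊥ := mul_ne_zero hc hc''
  obtain ⟨x, hx⟩ := chi7_princ hne (by
    rw [idl_mul hc hc'', cl_mul, cl_cj7 hb hS hτ hc', h, mul_inv_cancel])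
  obtain ⟨m, n, hmn, -⟩ := Qd.exists_int_coords hb.dim hb.sq hb.sf (by
    have := hb.mod
    omega) x.isIntegral_coe
  have h4 := chi7_half hb hmn
  rw [← hx, map_mul, hn] at h4
  have h5 : jacobiSym (4 * (Ideal.absNorm c * Ideal.absNorm c' : ℕ)) p = jacobiSym (m ^ 2) p := by
    apply jacobiSym.mod_left'
    rw [h4]
    obtain ⟨k, hk⟩ := hpa
    have : (m ^ 2 + (a : ℤ) * n ^ 2) = m ^ 2 + p * (k * n ^ 2) := by rw [hk]; push_cast; ring
    rw [this, Int.add_mul_emod_self_left]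
  have h6 : jacobiSym 4 p = 1 := by
    have h7 : (4 : ℤ) = 2 ^ 2 := by norm_num
    rw [h7]
    apply jacobiSym.sq_one'
    rw [Int.gcd_eq_natAbs]
    have h8 : Nat.Coprime 2 p := (Nat.coprime_primes Nat.prime_two hp).2 hp2.symm
    simpa using h8
  rw [jacobiSym.mul_left, h6, one_mul, jacobiSym.pow_left] at h5
  push_cast at h5
  rw [jacobiSym.mul_left] at h5
  rcases chi7_jac hp h1 with e1 | e1 <;> rcases chi7_jac hp h1' with e2 | e2
  · rw [e1, e2]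
  · rw [e1, e2] at h5
    rcases jacobiSym.trichotomy m p with e3 | e3 | e3 <;> rw [e3] at h5 <;> norm_num at h5
  · rw [e1, e2] at h5
    rcases jacobiSym.trichotomy m p with e3 | e3 | e3 <;> rw [e3] at h5 <;> norm_num at h5
  · rw [e1, e2]

/-- the symbol does not change if the class is multiplied by a square -/
theorem chi7_sq (hb : Base K a s) (hS : algebraMap (𝓞 K) K S = s) {p : ℕ} (hp : p.Prime)
    (hp2 : p ≠ 2) (hpa : p ∣ a) {c c' : Ideal (𝓞 K)} (hc : c ≠ ⊥) (hc' : c' ≠ ⊥)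
    (h1 : Nat.Coprime (Ideal.absNorm c) p) (h1' : Nat.Coprime (Ideal.absNorm c') p)
    {D : ClassGroup (𝓞 K)} (h : cl (idl c) = cl (idl c') * D ^ 2) :
    jacobiSym (Ideal.absNorm c) p = jacobiSym (Ideal.absNorm c') p := by
  have : NeZero p := ⟨hp.ne_zero⟩
  obtain ⟨I, hI0, hIp, hID⟩ := exists_rep (N := p) hp.ne_zero D
  have h2 : cl (idl c) = cl (idl (c' * (I * I))) := by
    rw [idl_mul hc' (mul_ne_zero hI0 hI0), cl_mul, idl_mul hI0 hI0, cl_mul, hID, h, pow_two]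
  have h3 : Nat.Coprime (Ideal.absNorm (c' * (I * I))) p := by
    rw [map_mul, map_mul]
    exact Nat.Coprime.mul_left h1' (Nat.Coprime.mul_left hIp hIp)
  rw [chi7 hb hS hp hp2 hpa hc (mul_ne_zero hc' (mul_ne_zero hI0 hI0)) h1 h3 h2, map_mul, map_mul]
  push_cast
  rw [jacobiSym.mul_left, jacobiSym.mul_left]
  rcases chi7_jac hp hIp with e1 | e1 <;> rw [e1] <;> norm_num

end Pool.Agent.Work.MP_8efaaa_nt.SR
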