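import Mathlib

/-!
# SR/Grp7 (M): finite abelian groups with at most four elements of exponent two

Notation: `C2 = {x | x ^ 2 = 1}`, `H` the squares (range of `powMonoidHom 2`), `card C = card C2 * card H` (kernel and range), `index H = card C2`. A finite commutative group of odd order has `C2 = 1`; by Cauchy (`exists_prime_orderOf_dvd_card`) `2 ∣ card A` gives an element of order `2` in the subgroup `A`.
PROOF of (i) in `grp_four` / `grp_two`: `card H = card C / card C2` is even as `8 ∣ card C` and `card C2 ∈ {1, 2, 4}` (`card C2` is at most `4`; it is a power of two, or: `card C = card C2 * card H`, `8 ∣ card C`, and `card C2 = 3` is impossible, `C2` is a group of exponent two). So `H` has an element of order two: `t ≠ 1`, `t ^ 2 = 1`, `t = b ^ 2`.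
PROOF of (ii) in `grp_two`: `card C2 ≤ 2`. Then `index H ≤ 2`. If `v ∉ H` then `index H = 2` and every element of `C` is in `H` or in `v H`. CLAIM: `index (zpowers v)` is odd. Otherwise the quotient `Q = C / zpowers v` has even order, so a nontrivial homomorphism to `{1, -1}` (or: `Q ≠ Q ^ 2`, as the squaring map of `Q` has a nontrivial kernel it is not surjective), but `Q / Q ^ 2` is
the quotient of `C` by `H * zpowers v = C`: contradiction. As `4 ∣ index`, `v ∈ H`: `t = 1`.
PROOF of (ii) in `grp_four`: suppose that there is no `t ∈ C2` with `v = t b ^ 2`, and that some `t0 ∈ C2` is not a square. Then `index H ≥ 4`, since `1, t0, v` and `t0 v` are in different classes modulo `H` (`v ∉ H`, `v t0⁻¹ ∉ H`, `t0 ∉ H`), so `index H = 4` and `C = H ∪ t0 H ∪ v H ∪ t0 v H`. Let `Q = C / zpowers v`, `4 ∣ card Q`. `Q / Q ^ 2` is generated by the image of `t0`,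
so the squaring map of `Q` has a kernel of order at most two: the elements of exponent two of `Q` are `1` and `u`. The image `T` of `t0` has `T ^ 2 = 1`, and `T ∉ Q ^ 2` if `card Q` is even (`Q / Q ^ 2 ≠ 1` is generated by `T`), in particular `T ≠ 1`, so `u = T`. But `4 ∣ card Q = 2 * card (Q ^ 2)` (kernel of order two), so `card (Q ^ 2)` is even and `Q ^ 2` contains an element
of order two, which is `T`: contradiction. `grp_one`: `card C2 ≤ 1`: `card C` is odd.
-/

set_option autoImplicit false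

namespace Pool.Agent.Work.MP_8efaaa_nt.SR

private theorem two_of_card {K : Type*} [Finite K] (h : Nat.card K ≤ 2) {a b : K} (hab : a ≠ b) (x : K) :
    x = a ∨ x = b := by
  classical
  by_contra hcon
  push Not at hcon
  have := Fintype.ofFinite K
  have h1 : ({a, b, x} : Finset K).card = 3 := by
    rw [Finset.card_insert_of_notMem, Finset.card_insert_of_notMem, Finset.card_singleton]
    · simp only [Finset.mem_singleton]
      exact fun h => hcon.2 h.symm
    · simp only [Finset.mem_insert, Finset.mem_singleton, not_or]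
      exact ⟨hab, fun h => hcon.1 h.symm⟩
  have h2 := Finset.card_le_univ ({a, b, x} : Finset K)
  rw [Nat.card_eq_fintype_card] at h
  omega

private theorem four_of_card {K : Type*} [Finite K] (h : Nat.card K ≤ 4) {a b c d : K} (hab : a ≠ b) (hac : a ≠ c)
    (had : a ≠ d) (hbc : b ≠ c) (hbd : b ≠ d) (hcd : c ≠ d) (x : K) : x = a ∨ x = b ∨ x = c ∨ x = d := by
  classical
  by_contra hcon
  push Not at hcon
  obtain ⟨xa, xb, xc, xd⟩ := hcon
  have := Fintype.ofFinite K
  have h1 : ({a, b, c, d, x} : Finset K).card = 5 := by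
    rw [Finset.card_insert_of_notMem, Finset.card_insert_of_notMem, Finset.card_insert_of_notMem,
      Finset.card_insert_of_notMem, Finset.card_singleton]
    · simp only [Finset.mem_singleton]
      exact fun h => xd h.symm
    · simp only [Finset.mem_insert, Finset.mem_singleton, not_or]
      exact ⟨hcd, fun h => xc h.symm⟩
    · simp only [Finset.mem_insert, Finset.mem_singleton, not_or]
      exact ⟨hbc, hbd, fun h => xb h.symm⟩
    · simp only [Finset.mem_insert, Finset.mem_singleton, not_or]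
      exact ⟨hab, hac, had, fun h => xa h.symm⟩
  have h2 := Finset.card_le_univ ({a, b, c, d, x} : Finset K)
  rw [Nat.card_eq_fintype_card] at h
  omega

private theorem mem_rg {G : Type*} [CommGroup G] (x : G) :
    x ∈ (powMonoidHom 2 : G →* G).range ↔ ∃ b : G, x = b ^ 2 := by
  constructor
  · rintro ⟨b, hb⟩
    exact ⟨b, hb.symm⟩
  · rintro ⟨b, hb⟩
    exact ⟨b, hb.symm⟩

private theorem card_kr (G : Type*) [CommGroup G] [Finite G] :
    Nat.card {x : G // x ^ 2 = 1} * Nat.card (powMonoidHom 2 : G →* G).range = Nat.card G := by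
  have h1 := Subgroup.card_mul_index (powMonoidHom 2 : G →* G).ker
  rw [Subgroup.index_ker] at h1
  rw [← h1]
  congr 1

private theorem index_rg (G : Type*) [CommGroup G] [Finite G] :
    (powMonoidHom 2 : G →* G).range.index = Nat.card {x : G // x ^ 2 = 1} := by
  have h1 := Subgroup.card_mul_index (powMonoidHom 2 : G →* G).range
  have h2 := card_kr G
  have h3 : 0 < Nat.card (powMonoidHom 2 : G →* G).range := Nat.card_pos
  rw [mul_comm] at h2
  exact Nat.eq_of_mul_eq_mul_left h3 (h1.trans h2.symm)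

private theorem ex_two (G : Type*) [CommGroup G] [Finite G] (h : 2 ∣ Nat.card G) :
    ∃ t : G, t ≠ 1 ∧ t ^ 2 = 1 := by
  have : Fact (Nat.Prime 2) := ⟨Nat.prime_two⟩
  obtain ⟨t, ht⟩ := exists_prime_orderOf_dvd_card' (G := G) 2 h
  refine ⟨t, ?_, ?_⟩
  · intro h1
    rw [h1, orderOf_one] at ht
    omega
  · rw [← ht]
    exact pow_orderOf_eq_one t

private theorem ex_sq (G : Type*) [CommGroup G] [Finite G] (h : 2 ∣ Nat.card (powMonoidHom 2 : G →* G).range) :
    ∃ t b : G, t ≠ 1 ∧ t ^ 2 = 1 ∧ t = b ^ 2 := by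
  obtain ⟨t, h1, h2⟩ := ex_two _ h
  obtain ⟨b, hb⟩ := (mem_rg (t : G)).mp t.2
  refine ⟨t, b, ?_, ?_, hb⟩
  · intro h3
    exact h1 (Subtype.ext h3)
  · have h3 := congrArg Subtype.val h2
    simpa using h3

private theorem one_i {G : Type*} [CommGroup G] [Finite G] (h2 : Nat.card {x : G // x ^ 2 = 1} ≤ 4)
    (h8 : 8 ∣ Nat.card G) : ∃ t b : G, t ≠ 1 ∧ t ^ 2 = 1 ∧ t = b ^ 2 := by
  refine ex_sq G ?_
  have h1 := card_kr G
  rw [← h1] at h8
  have h3 : 0 < Nat.card {x : G // x ^ 2 = 1} := by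
    have : Nonempty {x : G // x ^ 2 = 1} := ⟨⟨1, one_pow 2⟩⟩
    exact Nat.card_pos
  generalize Nat.card {x : G // x ^ 2 = 1} = a at h2 h3 h8
  generalize Nat.card (powMonoidHom 2 : G →* G).range = b at h8
  interval_cases a <;> omega

private theorem no_inj {Q : Type*} [CommGroup Q] [Finite Q] (h4 : 2 ∣ Nat.card Q)
    (hs : ∀ x : Q, ∃ s : Q, x = s ^ 2) : False := by
  obtain ⟨r, hr1, hr2⟩ := ex_two Q h4
  have h1 : Function.Surjective (fun s : Q => s ^ 2) := fun x => by
    obtain ⟨s, hs⟩ := hs x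
    exact ⟨s, hs.symm⟩
  have h2 : Function.Injective (fun s : Q => s ^ 2) := Finite.injective_iff_surjective.mpr h1
  exact hr1 (h2 (by simpa using hr2))

private theorem no_T {Q : Type*} [CommGroup Q] [Finite Q] (h4 : 4 ∣ Nat.card Q) {T : Q} (hT : T ^ 2 = 1)
    (hs : ∀ x : Q, (∃ s : Q, x = s ^ 2) ∨ ∃ s : Q, x = T * s ^ 2) : False := by
  have h1 : (powMonoidHom 2 : Q →* Q).range.index ≤ 2 := by
    have h2 : Function.Surjective (fun b : Bool => (if b then (T : Q ⧸ (powMonoidHom 2 : Q →* Q).range) else 1)) := by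
      intro y
      obtain ⟨x, rfl⟩ := QuotientGroup.mk_surjective y
      rcases hs x with ⟨s, h⟩ | ⟨s, h⟩
      · refine ⟨false, ?_⟩
        simp only [Bool.false_eq_true, if_false]
        rw [eq_comm, QuotientGroup.eq_one_iff, mem_rg]
        exact ⟨s, h⟩
      · refine ⟨true, ?_⟩
        simp only [if_true]
        rw [QuotientGroup.eq, mem_rg]
        exact ⟨s, by rw [h]; group⟩
    have h3 := Nat.card_le_card_of_surjective _ h2
    rw [Nat.card_eq_fintype_card (α := Bool), Fintype.card_bool] at h3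
    exact h3
  rw [index_rg] at h1
  have h2 := card_kr Q
  rw [← h2] at h4
  have h3 : 0 < Nat.card {x : Q // x ^ 2 = 1} := by
    have : Nonempty {x : Q // x ^ 2 = 1} := ⟨⟨1, one_pow 2⟩⟩
    exact Nat.card_pos
  have h5 : 2 ∣ Nat.card (powMonoidHom 2 : Q →* Q).range := by
    have h1' := h1
    clear h2
    generalize Nat.card {x : Q // x ^ 2 = 1} = a at h1' h3 h4
    generalize Nat.card (powMonoidHom 2 : Q →* Q).range = b at h4
    interval_cases a <;> omega
  obtain ⟨r, u, hr1, hr2, hru⟩ := ex_sq Q h5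
  have h6 : (⟨1, one_pow 2⟩ : {x : Q // x ^ 2 = 1}) ≠ ⟨r, hr2⟩ := by
    intro h
    exact hr1 (congrArg Subtype.val h).symm
  have h7 : ∃ w : Q, T = w ^ 2 := by
    rcases two_of_card h1 h6 ⟨T, hT⟩ with h | h
    · exact ⟨1, by rw [one_pow]; exact congrArg Subtype.val h⟩
    · exact ⟨u, by rw [← hru]; exact congrArg Subtype.val h⟩
  obtain ⟨w, hw⟩ := h7
  refine no_inj (Q := Q) ?_ (fun x => ?_)
  · rw [← h2]
    exact h5.mul_left _
  · rcases hs x with h | ⟨s, h⟩
    · exact h
    · exact ⟨w * s, by rw [h, hw, mul_pow]⟩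

theorem grp_one {C : Type*} [CommGroup C] [Finite C] (h2 : Nat.card {x : C // x ^ 2 = 1} ≤ 1) :
    ¬ 2 ∣ Nat.card C := by
  intro h
  obtain ⟨t, h1, h3⟩ := ex_two C h
  have h4 := (Finite.card_le_one_iff_subsingleton (α := {x : C // x ^ 2 = 1})).mp h2
  exact h1 (congrArg Subtype.val (Subsingleton.elim (⟨t, h3⟩ : {x : C // x ^ 2 = 1}) ⟨1, one_pow 2⟩))

theorem grp_two {C : Type*} [CommGroup C] [Finite C] (h2 : Nat.card {x : C // x ^ 2 = 1} ≤ 2)
    (h8 : 8 ∣ Nat.card C) {v : C} (h4 : 4 ∣ (Subgroup.zpowers v).index) :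
    (∃ t b : C, t ≠ 1 ∧ t ^ 2 = 1 ∧ t = b ^ 2) ∧ ∃ t b : C, t ^ 2 = 1 ∧ v = t * b ^ 2 := by
  refine ⟨one_i (h2.trans (by norm_num)) h8, ?_⟩
  by_cases hv : ∃ b : C, v = b ^ 2
  · obtain ⟨b, hb⟩ := hv
    exact ⟨1, b, one_pow 2, by rw [one_mul]; exact hb⟩
  · exfalso
    have h1 : Nat.card (C ⧸ (powMonoidHom 2 : C →* C).range) ≤ 2 := by
      have h3 := index_rg C
      rw [Subgroup.index] at h3
      rw [h3]
      exact h2
    have h3 : (1 : C ⧸ (powMonoidHom 2 : C →* C).range) ≠ (v : C ⧸ (powMonoidHom 2 : C →* C).range) := by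
      intro h
      rw [eq_comm, QuotientGroup.eq_one_iff, mem_rg] at h
      exact hv h
    refine no_inj (Q := C ⧸ Subgroup.zpowers v) ?_ (fun y => ?_)
    · exact Dvd.dvd.trans (by norm_num) h4
    · obtain ⟨x, rfl⟩ := QuotientGroup.mk_surjective y
      rcases two_of_card h1 h3 (x : C ⧸ (powMonoidHom 2 : C →* C).range) with h | h
      · rw [QuotientGroup.eq_one_iff, mem_rg] at h
        obtain ⟨b, hb⟩ := h
        exact ⟨b, by rw [hb]; rfl⟩
      · rw [eq_comm, QuotientGroup.eq, mem_rg] at h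
        obtain ⟨b, hb⟩ := h
        refine ⟨(b : C ⧸ Subgroup.zpowers v), ?_⟩
        have h5 : (b : C ⧸ Subgroup.zpowers v) ^ 2 = ((b ^ 2 : C) : C ⧸ Subgroup.zpowers v) := rfl
        rw [h5, ← hb, eq_comm, QuotientGroup.eq]
        have h6 : (v⁻¹ * x)⁻¹ * x = v := by
          rw [mul_inv_rev, inv_inv]
          rw [mul_comm x⁻¹ v, mul_assoc, inv_mul_cancel, mul_one]
        rw [h6]
        exact Subgroup.mem_zpowers v

theorem grp_four {C : Type*} [CommGroup C] [Finite C] (h2 : Nat.card {x : C // x ^ 2 = 1} ≤ 4)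
    (h8 : 8 ∣ Nat.card C) {v : C} (h4 : 4 ∣ (Subgroup.zpowers v).index) :
    (∃ t b : C, t ≠ 1 ∧ t ^ 2 = 1 ∧ t = b ^ 2) ∧
    ((∃ t b : C, t ^ 2 = 1 ∧ v = t * b ^ 2) ∨ ∀ t : C, t ^ 2 = 1 → ∃ b : C, t = b ^ 2) := by
  refine ⟨one_i h2 h8, ?_⟩
  by_contra hcon
  push Not at hcon
  obtain ⟨hv, t0, ht0, hn⟩ := hcon
  have hinv : t0⁻¹ = t0 := by
    rw [inv_eq_iff_mul_eq_one, ← sq]
    exact ht0
  have h1 : Nat.card (C ⧸ (powMonoidHom 2 : C →* C).range) ≤ 4 := by
    have h3 := index_rg C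
    rw [Subgroup.index] at h3
    rw [h3]
    exact h2
  have a1 : (1 : C ⧸ (powMonoidHom 2 : C →* C).range) ≠ ((t0 : C) : C ⧸ (powMonoidHom 2 : C →* C).range) := by
    intro h
    rw [eq_comm, QuotientGroup.eq_one_iff, mem_rg] at h
    obtain ⟨b, hb⟩ := h
    exact hn b hb
  have a2 : (1 : C ⧸ (powMonoidHom 2 : C →* C).range) ≠ ((v : C) : C ⧸ (powMonoidHom 2 : C →* C).range) := by
    intro h
    rw [eq_comm, QuotientGroup.eq_one_iff, mem_rg] at h
    obtain ⟨b, hb⟩ := h
    exact hv 1 b (one_pow 2) (by rw [one_mul]; exact hb)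
  have a3 : (1 : C ⧸ (powMonoidHom 2 : C →* C).range) ≠ ((t0 * v : C) : C ⧸ (powMonoidHom 2 : C →* C).range) := by
    intro h
    rw [eq_comm, QuotientGroup.eq_one_iff, mem_rg] at h
    obtain ⟨b, hb⟩ := h
    refine hv t0 b ht0 ?_
    rw [← hb, ← mul_assoc, ← sq, ht0, one_mul]
  have a4 : ((t0 : C) : C ⧸ (powMonoidHom 2 : C →* C).range) ≠ ((v : C) : C ⧸ (powMonoidHom 2 : C →* C).range) := by
    intro h
    rw [QuotientGroup.eq, mem_rg, hinv] at h
    obtain ⟨b, hb⟩ := h
    refine hv t0 b ht0 ?_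
    rw [← hb, ← mul_assoc, ← sq, ht0, one_mul]
  have a5 : ((t0 : C) : C ⧸ (powMonoidHom 2 : C →* C).range) ≠
      ((t0 * v : C) : C ⧸ (powMonoidHom 2 : C →* C).range) := by
    intro h
    rw [QuotientGroup.eq, mem_rg, ← mul_assoc, inv_mul_cancel, one_mul] at h
    obtain ⟨b, hb⟩ := h
    exact hv 1 b (one_pow 2) (by rw [one_mul]; exact hb)
  have a6 : ((v : C) : C ⧸ (powMonoidHom 2 : C →* C).range) ≠
      ((t0 * v : C) : C ⧸ (powMonoidHom 2 : C →* C).range) := by
    intro h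
    rw [QuotientGroup.eq, mem_rg, mul_comm t0 v, ← mul_assoc, inv_mul_cancel, one_mul] at h
    obtain ⟨b, hb⟩ := h
    exact hn b hb
  have key : ∀ x : C, ∀ w : C, ((x : C) : C ⧸ (powMonoidHom 2 : C →* C).range) =
      ((w : C) : C ⧸ (powMonoidHom 2 : C →* C).range) → ∃ s : C, x = w * s ^ 2 := by
    intro x w h
    rw [eq_comm, QuotientGroup.eq, mem_rg] at h
    obtain ⟨b, hb⟩ := h
    exact ⟨b, by rw [← hb, mul_inv_cancel_left]⟩
  have hv1 : ((v : C) : C ⧸ Subgroup.zpowers v) = 1 := by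
    rw [QuotientGroup.eq_one_iff]
    exact Subgroup.mem_zpowers v
  refine no_T (Q := C ⧸ Subgroup.zpowers v) h4 (T := ((t0 : C) : C ⧸ Subgroup.zpowers v)) ?_ (fun y => ?_)
  · have h5 : ((t0 : C) : C ⧸ Subgroup.zpowers v) ^ 2 = ((t0 ^ 2 : C) : C ⧸ Subgroup.zpowers v) := rfl
    rw [h5, ht0]
    rfl
  · obtain ⟨x, rfl⟩ := QuotientGroup.mk_surjective y
    rcases four_of_card h1 a1 a2 a3 a4 a5 a6 (x : C ⧸ (powMonoidHom 2 : C →* C).range) with h | h | h | h
    · obtain ⟨s, hs⟩ := key x 1 h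
      left
      exact ⟨(s : C ⧸ Subgroup.zpowers v), by rw [hs, one_mul]; rfl⟩
    · obtain ⟨s, hs⟩ := key x t0 h
      right
      exact ⟨(s : C ⧸ Subgroup.zpowers v), by rw [hs]; rfl⟩
    · obtain ⟨s, hs⟩ := key x v h
      left
      refine ⟨(s : C ⧸ Subgroup.zpowers v), ?_⟩
      rw [hs, QuotientGroup.mk_mul, hv1, one_mul]
      rfl
    · obtain ⟨s, hs⟩ := key x (t0 * v) h
      right
      refine ⟨(s : C ⧸ Subgroup.zpowers v), ?_⟩
      rw [hs, QuotientGroup.mk_mul, QuotientGroup.mk_mul, hv1, mul_one]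
      rfl

end Pool.Agent.Work.MP_8efaaa_nt.SR
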