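import Mathlib
import Pool.Agent.Work.MP_8efaaa_nt.SR.Grp7
import Pool.Agent.Work.MP_8efaaa_nt.SR.Chi7
import Pool.Agent.Work.MP_8efaaa_nt.SR.Amb7
import Pool.Agent.Work.MP_8efaaa_nt.K7.MBas
import Pool.Agent.Work.MP_8efaaa_nt.N7.EMain
import Pool.Agent.Work.MP_8efaaa_nt.T.Fin

/-!
# SR/NC7: what holds if `a = 7 (mod 8)` is not congruent
-/

set_option autoImplicit false

namespace Pool.Agent.Work.MP_8efaaa_nt.SR

open IsDedekindDomain NumberField Pool.Agent.Work.MP_787500_nt.HC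
open Pool.Agent.Work.MP_8efaaa_nt.T Pool.Agent.Work.MP_8efaaa_nt.R
open Pool.Agent.Work.MP_8efaaa_nt.N5 Pool.Agent.Work.MP_8efaaa_nt.N7
open Pool.Agent.Work.MP_8efaaa_nt.K7
open scoped nonZeroDivisors

theorem nc7 {a : ℕ} (ha : Squarefree a) (h8 : a % 8 = 7) (hk : a.primeFactors.card ≤ 3)
    (hnc : ¬ IsCongruent a) :
    ∃ d e : ℕ, d * e = a ∧ 1 < d ∧ 1 < e ∧
      (∀ p : ℕ, p.Prime → p ∣ d → jacobiSym e p = 1) ∧
      (∀ p : ℕ, p.Prime → p ∣ e → jacobiSym d p = 1) ∧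
      ((∃ m f : ℕ, m * f = a ∧ (∀ p : ℕ, p.Prime → p ∣ m → jacobiSym (2 * f : ℕ) p = 1) ∧
        ∀ p : ℕ, p.Prime → p ∣ f → jacobiSym (2 * m : ℕ) p = 1) ∨
      (a.primeFactors.card = 3 ∧ ∀ p q : ℕ, p.Prime → q.Prime → p ∣ a → q ∣ a → p ≠ q →
        jacobiSym q p = 1)) := by
  classical
  obtain ⟨K, _, _, s, hb⟩ := exists_base7 ha h8
  obtain ⟨S, hS⟩ := exists_S7 hb
  obtain ⟨v, hv⟩ : ∃ v : HeightOneSpectrum (𝓞 K), (2 : 𝓞 K) ∈ v.asIdeal := by
    obtain ⟨v, hv⟩ := Pool.Agent.Work.MP_787500_nt.Quad.exists_place (K := K) Nat.prime_two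
    exact ⟨v, by exact_mod_cast hv⟩
  have h81 : 8 ∣ Nat.card (ClassGroup (𝓞 K)) := by
    by_contra h
    exact hnc (main7 hb h)
  have h41 : 4 ∣ (Subgroup.zpowers (cl (pr v))).index := by
    by_contra h
    apply hnc
    refine T.main (s := s) hb hv ?_
    rwa [cl_inv, Subgroup.zpowers_inv]
  have hodd : Odd a := Nat.odd_iff.2 (by omega)
  have ha0 : a ≠ 0 := ha.ne_zero
  -- symbols of divisors
  have hp2 : ∀ {p : ℕ}, p.Prime → p ∣ a → p ≠ 2 := by
    intro p hp hpa h2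
    subst h2
    have := Nat.odd_iff.1 hodd
    omega
  have hne : ∀ {d : ℕ}, d ∣ a → K6.r6 S d ≠ ⊥ := by
    intro d hd h0
    have h1 := norm_r7 hb hS hd
    rw [h0, Ideal.absNorm_bot] at h1
    subst h1
    exact ha0 (zero_dvd_iff.1 hd)
  have hco : ∀ {d e p : ℕ}, d * e = a → p.Prime → p ∣ d → Nat.Coprime e p := by
    intro d e p hde hp hpd
    have h1 : Nat.Coprime d e := Nat.coprime_of_squarefree_mul (by rw [hde]; exact ha)
    exact (h1.coprime_dvd_left hpd).symm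
  have htop : (⊤ : Ideal (𝓞 K)) ≠ ⊥ := top_ne_bot
  have hcltop : cl (idl (⊤ : Ideal (𝓞 K))) = 1 := by
    have h1 : idl (⊤ : Ideal (𝓞 K)) = 1 := by
      unfold idl
      rw [dif_neg htop]
      apply Units.ext
      rw [Units.val_mk0, Units.val_one]
      exact FractionalIdeal.coeIdeal_top _
    rw [h1, cl_one]
  have hsym : ∀ {d e p : ℕ}, d * e = a → p.Prime → p ∣ d → ∀ b : ClassGroup (𝓞 K),
      cl (idl (K6.r6 S e)) = b ^ 2 → jacobiSym e p = 1 := by
    intro d e p hde hp hpd b hbe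
    have hpa : p ∣ a := hpd.trans ⟨e, hde.symm⟩
    have hea : e ∣ a := ⟨d, by rw [mul_comm]; exact hde.symm⟩
    have h1 := chi7_sq hb hS hp (hp2 hp hpa) hpa (hne hea) htop
      (by rw [norm_r7 hb hS hea]; exact hco hde hp hpd)
      (by rw [Ideal.absNorm_top]; exact Nat.coprime_one_left p) (D := b)
      (by rw [hcltop, one_mul]; exact hbe)
    rw [norm_r7 hb hS hea, Ideal.absNorm_top, Nat.cast_one, jacobiSym.one_left] at h1
    exact h1
  have hsym2 : ∀ {d e p : ℕ}, d * e = a → p.Prime → p ∣ d → ∀ b : ClassGroup (𝓞 K),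
      cl (pr v) = cl (idl (K6.r6 S e)) * b ^ 2 → jacobiSym (2 * e : ℕ) p = 1 := by
    intro d e p hde hp hpd b hbe
    have hpa : p ∣ a := hpd.trans ⟨e, hde.symm⟩
    have hea : e ∣ a := ⟨d, by rw [mul_comm]; exact hde.symm⟩
    have hvne : v.asIdeal ≠ ⊥ := v.ne_bot
    have h1 := chi7_sq hb hS hp (hp2 hp hpa) hpa hvne (hne hea)
      (by
        rw [norm_v7 hb hv]
        exact (Nat.coprime_primes Nat.prime_two hp).2 (hp2 hp hpa).symm)
      (by rw [norm_r7 hb hS hea]; exact hco hde hp hpd) (D := b)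
      (by rw [idl_pr]; exact hbe)
    rw [norm_r7 hb hS hea, norm_v7 hb hv] at h1
    push_cast at h1 ⊢
    rw [jacobiSym.mul_left, h1]
    have : NeZero p := ⟨hp.ne_zero⟩
    have h3 : jacobiSym (e : ℤ) p ≠ 0 := by
      rw [Ne, jacobiSym.eq_zero_iff_not_coprime, not_not, Int.gcd_natCast_natCast]
      exact hco hde hp hpd
    rcases jacobiSym.trichotomy (e : ℤ) p with h4 | h4 | h4
    · exact absurd h4 h3
    · rw [h4]; norm_num
    · rw [h4]; norm_num
  -- a class of order two that is a square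
  have hpair : (∃ t b : ClassGroup (𝓞 K), t ≠ 1 ∧ t ^ 2 = 1 ∧ t = b ^ 2) →
      ∃ d e : ℕ, d * e = a ∧ 1 < d ∧ 1 < e ∧
        (∀ p : ℕ, p.Prime → p ∣ d → jacobiSym e p = 1) ∧
        (∀ p : ℕ, p.Prime → p ∣ e → jacobiSym d p = 1) := by
    rintro ⟨t, b, ht1, ht2, htb⟩
    obtain ⟨d, e, hde, htd, hte, h1⟩ := amb7 hb hS t ht2
    obtain ⟨hd1, he1⟩ := h1 ht1
    refine ⟨d, e, hde, hd1, he1, ?_, ?_⟩
    · intro p hp hpd
      exact hsym hde hp hpd b (by rw [← hte, htb])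
    · intro p hp hpe
      exact hsym (by rw [mul_comm]; exact hde) hp hpe b (by rw [← htd, htb])
  have hfirst : (∃ t b : ClassGroup (𝓞 K), t ^ 2 = 1 ∧ cl (pr v) = t * b ^ 2) →
      ∃ m f : ℕ, m * f = a ∧ (∀ p : ℕ, p.Prime → p ∣ m → jacobiSym (2 * f : ℕ) p = 1) ∧
        ∀ p : ℕ, p.Prime → p ∣ f → jacobiSym (2 * m : ℕ) p = 1 := by
    rintro ⟨t, b, ht2, htb⟩
    obtain ⟨d, e, hde, htd, hte, -⟩ := amb7 hb hS t ht2
    refine ⟨d, e, hde, ?_, ?_⟩
    · intro p hp hpd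
      exact hsym2 hde hp hpd b (by rw [← hte, htb])
    · intro p hp hpe
      exact hsym2 (by rw [mul_comm]; exact hde) hp hpe b (by rw [← htd, htb])
  have hcard := amb_card hb
  have hk1 : a.primeFactors.card = 0 ∨ a.primeFactors.card = 1 ∨ a.primeFactors.card = 2 ∨
      a.primeFactors.card = 3 := by omega
  rcases hk1 with hk1 | hk1 | hk1 | hk1
  · rw [hk1] at hcard
    exact absurd ((by norm_num : 2 ∣ 8).trans h81) (grp_one (by simpa using hcard))
  · rw [hk1] at hcard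
    exact absurd ((by norm_num : 2 ∣ 8).trans h81) (grp_one (by simpa using hcard))
  · rw [hk1] at hcard
    obtain ⟨h1, h2⟩ := grp_two (by simpa using hcard) h81 h41
    obtain ⟨d, e, hde, hd1, he1, h3, h4⟩ := hpair h1
    exact ⟨d, e, hde, hd1, he1, h3, h4, Or.inl (hfirst h2)⟩
  · rw [hk1] at hcard
    obtain ⟨h1, h2⟩ := grp_four (by simpa using hcard) h81 h41
    obtain ⟨d, e, hde, hd1, he1, h3, h4⟩ := hpair h1
    refine ⟨d, e, hde, hd1, he1, h3, h4, ?_⟩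
    rcases h2 with h2 | h2
    · exact Or.inl (hfirst h2)
    · refine Or.inr ⟨hk1, ?_⟩
      intro p q hp hq hpa hqa hpq
      -- the class of the prime over `q` is a square
      have h5 : cl (idl (K6.r6 S q)) ^ 2 = 1 := by
        rw [pow_two, ← cl_mul, ← idl_mul (hne hqa) (hne hqa), r7_sq hb hS hqa]
        have h6 : algebraMap (𝓞 K) K (q : 𝓞 K) ≠ 0 := by
          rw [map_natCast, Nat.cast_ne_zero]
          exact hq.ne_zero
        have h7 : (q : 𝓞 K) ≠ 0 := by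
          rw [Nat.cast_ne_zero]
          exact hq.ne_zero
        rw [idl_span h7 h6, ← cl_one, eq_comm, cl_eq_iff]
        exact ⟨_, (mul_one _).symm⟩
      obtain ⟨b, hbq⟩ := h2 _ h5
      obtain ⟨c, hc⟩ := hqa
      have hpc : p ∣ c := by
        have h6 : p ∣ q * c := by rw [← hc]; exact hpa
        rcases (Nat.Prime.dvd_mul hp).1 h6 with h7 | h7
        · exact absurd ((Nat.prime_dvd_prime_iff_eq hp hq).1 h7) hpq
        · exact h7
      exact hsym (d := c) (e := q) (by rw [mul_comm]; exact hc.symm) hp hpc b hbq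

end Pool.Agent.Work.MP_8efaaa_nt.SR
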