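import Mathlib
import Pool.Agent.Work.MP_8efaaa_nt.SR.Defs

/-!
# SR/Red (M): the Redei matrix and indicator functions

`a = d e` odd and squarefree, `p` a prime factor. PROOF of `redei_ind`. `sg (x * y) p = sg x p + sg y p` for `x`, `y` prime to `p` (`jacobiSym.mul_left`, the values are `1` or `-1`), so for `d` prime to `p`: `sg d p = ∑` over the prime factors `q` of `d` of `sg q p` (`d = ∏ q`, `Nat.prod_primeFactors_of_squarefree`).
The sum `∑_q redei a p q * ind a d q = ∑_{q ∣ d} redei a p q`. If `p ∤ d`: all terms have `q ≠ p`: `∑_{q ∣ d} sg q p = sg d p`. If `p ∣ d`: `∑_{q ∣ d, q ≠ p} sg q p + ∑_{r ≠ p} sg r p`; in characteristic two the terms with `r ∣ d` cancel and `∑_{r ∤ d} sg r p = ∑_{r ∣ e} sg r p = sg e p` remains.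
`redei_zero`: `sg e p = 0` for `p ∣ d`, `sg d p = 0` for `p ∣ e`. `redei_one`: `ind a a = 1`, `e = 1`: `sg 1 p = 0`. `ind_add`: `p` divides exactly one of `d`, `e`.
-/

set_option autoImplicit false

namespace Pool.Agent.Work.MP_8efaaa_nt.SR

private theorem sg_mul {x y : ℤ} {p : ℕ} (hx : x.gcd p = 1) (hy : y.gcd p = 1) :
    sg (x * y) p = sg x p + sg y p := by
  unfold sg
  rw [jacobiSym.mul_left]
  rcases jacobiSym.eq_one_or_neg_one hx with h1 | h1 <;>
    rcases jacobiSym.eq_one_or_neg_one hy with h2 | h2 <;> rw [h1, h2] <;> decide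

private theorem sg_one (p : ℕ) : sg 1 p = 0 := by
  unfold sg
  rw [jacobiSym.one_left]
  decide

private theorem sg_prod {p : ℕ} (T : Finset ℕ) (hT : ∀ q ∈ T, Nat.Coprime q p) :
    sg ((∏ q ∈ T, q : ℕ) : ℤ) p = ∑ q ∈ T, sg (q : ℤ) p := by
  induction T using Finset.induction_on with
  | empty =>
    rw [Finset.prod_empty, Finset.sum_empty, Nat.cast_one, sg_one]
  | insert q T hq ih =>
    rw [Finset.prod_insert hq, Finset.sum_insert hq, Nat.cast_mul, sg_mul,
      ih fun r hr => hT r (Finset.mem_insert_of_mem hr)]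
    · rw [Int.gcd_natCast_natCast]
      exact hT q (Finset.mem_insert_self _ _)
    · rw [Int.gcd_natCast_natCast]
      exact Nat.Coprime.prod_left fun r hr => hT r (Finset.mem_insert_of_mem hr)

private theorem ind_sum {a d e : ℕ} (ha : Squarefree a) (hde : d * e = a) (p : a.primeFactors) :
    ind a d p + ind a e p = 1 := by
  have hp := Nat.prime_of_mem_primeFactors p.2
  have hpa : (p : ℕ) ∣ d * e := hde.symm ▸ Nat.dvd_of_mem_primeFactors p.2
  rw [← hde] at ha
  have hco := (Nat.squarefree_mul_iff.1 ha).1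
  unfold ind
  by_cases h1 : (p : ℕ) ∣ d
  · have h2 : ¬ (p : ℕ) ∣ e := fun h2 => hp.one_lt.ne' (Nat.eq_one_of_dvd_coprimes hco h1 h2)
    rw [if_pos h1, if_neg h2, add_zero]
  · rw [if_neg h1, if_pos ((hp.dvd_mul.1 hpa).resolve_left h1), zero_add]

private theorem sum_ind {a d : ℕ} (ha : Squarefree a) (hd : d ∣ a) (p : a.primeFactors)
    (hp : ¬ (p : ℕ) ∣ d) :
    ∑ q : a.primeFactors, (if q = p then 0 else sg (q : ℕ) p) * ind a d q = sg d p := by
  have hpp := Nat.prime_of_mem_primeFactors p.2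
  have hsd : Squarefree d := ha.squarefree_of_dvd hd
  have ha0 : a ≠ 0 := ha.ne_zero
  have h1 : ∀ q : a.primeFactors, (if q = p then 0 else sg (q : ℕ) p) * ind a d q =
      if (q : ℕ) ∣ d then sg (q : ℕ) p else 0 := by
    intro q
    unfold ind
    by_cases h2 : (q : ℕ) ∣ d
    · have h3 : q ≠ p := by
        rintro rfl
        exact hp h2
      rw [if_neg h3, if_pos h2, if_pos h2, mul_one]
    · rw [if_neg h2, if_neg h2, mul_zero]
  rw [Finset.sum_congr rfl fun q _ => h1 q,
    Finset.sum_coe_sort a.primeFactors (fun q : ℕ => if q ∣ d then sg (q : ℤ) p else 0),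
    ← Finset.sum_filter]
  have h2 : a.primeFactors.filter (fun q => q ∣ d) = d.primeFactors := by
    ext q
    rw [Finset.mem_filter, Nat.mem_primeFactors, Nat.mem_primeFactors]
    exact ⟨fun h => ⟨h.1.1, h.2, hsd.ne_zero⟩, fun h => ⟨⟨h.1, h.2.1.trans hd, ha0⟩, h.2.1⟩⟩
  rw [h2, ← sg_prod]
  · rw [Nat.prod_primeFactors_of_squarefree hsd]
  · intro q hq
    have hqp := Nat.prime_of_mem_primeFactors hq
    rw [Nat.coprime_primes hqp hpp]
    rintro rfl
    exact hp (Nat.dvd_of_mem_primeFactors hq)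

theorem redei_ind {a d e : ℕ} (ha : Squarefree a) (ho : Odd a) (hde : d * e = a)
    (p : a.primeFactors) :
    (redei a).mulVec (ind a d) p = if (p : ℕ) ∣ d then sg e p else sg d p := by
  have hda : d ∣ a := ⟨e, hde.symm⟩
  have hea : e ∣ a := ⟨d, by rw [mul_comm, hde]⟩
  have hp := Nat.prime_of_mem_primeFactors p.2
  have h2 : ∀ x : ZMod 2, x + x = 0 := by decide
  have h1 : (redei a).mulVec (ind a d) p =
      (∑ r : a.primeFactors, (if r = p then 0 else sg (r : ℕ) p)) * ind a d p +
      ∑ q : a.primeFactors, (if q = p then 0 else sg (q : ℕ) p) * ind a d q := by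
    show ∑ q, redei a p q * ind a d q = _
    have h3 : ∀ q : a.primeFactors, redei a p q * ind a d q =
        (if q = p then (∑ r : a.primeFactors, (if r = p then 0 else sg (r : ℕ) p)) *
          ind a d p else 0) + (if q = p then 0 else sg (q : ℕ) p) * ind a d q := by
      intro q
      unfold redei
      by_cases h4 : q = p
      · subst h4
        simp
      · rw [if_neg (fun h5 => h4 h5.symm), if_neg h4, if_neg h4, zero_add]
    rw [Finset.sum_congr rfl fun q _ => h3 q, Finset.sum_add_distrib, Finset.sum_ite_eq',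
      if_pos (Finset.mem_univ p)]
  by_cases hpd : (p : ℕ) ∣ d
  · have hpe : ¬ (p : ℕ) ∣ e := by
      intro hpe
      have h3 := ind_sum ha hde p
      unfold ind at h3
      rw [if_pos hpd, if_pos hpe] at h3
      exact absurd h3 (by decide)
    have hind : ind a d p = 1 := if_pos hpd
    rw [h1, if_pos hpd, ← sum_ind ha hea p hpe, hind, mul_one, ← Finset.sum_add_distrib]
    refine Finset.sum_congr rfl fun q _ => ?_
    have h3 := ind_sum ha hde q
    have h4 : ind a e q = 1 + ind a d q := by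
      rw [← h3]
      linear_combination -h2 (ind a d q)
    rw [h4]
    ring
  · have hind : ind a d p = 0 := if_neg hpd
    rw [h1, if_neg hpd, hind, mul_zero, zero_add, sum_ind ha hda p hpd]

theorem redei_zero {a d e : ℕ} (ha : Squarefree a) (ho : Odd a) (hde : d * e = a)
    (h1 : ∀ p : ℕ, p.Prime → p ∣ d → jacobiSym e p = 1)
    (h2 : ∀ p : ℕ, p.Prime → p ∣ e → jacobiSym d p = 1) :
    (redei a).mulVec (ind a d) = 0 := by
  funext p
  have hp := Nat.prime_of_mem_primeFactors p.2
  have hpa : (p : ℕ) ∣ d * e := hde.symm ▸ Nat.dvd_of_mem_primeFactors p.2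
  rw [redei_ind ha ho hde, Pi.zero_apply]
  by_cases hpd : (p : ℕ) ∣ d
  · rw [if_pos hpd]
    unfold sg
    rw [h1 p hp hpd]
    decide
  · rw [if_neg hpd]
    unfold sg
    rw [h2 p hp ((hp.dvd_mul.1 hpa).resolve_left hpd)]
    decide

theorem redei_one {a : ℕ} (ha : Squarefree a) (ho : Odd a) :
    (redei a).mulVec (fun _ => 1) = 0 := by
  have h1 : (fun _ : a.primeFactors => (1 : ZMod 2)) = ind a a := by
    funext p
    exact (if_pos (Nat.dvd_of_mem_primeFactors p.2)).symm
  rw [h1]
  funext p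
  rw [redei_ind ha ho (mul_one a), if_pos (Nat.dvd_of_mem_primeFactors p.2), Nat.cast_one,
    sg_one, Pi.zero_apply]

theorem ind_add {a d e : ℕ} (ha : Squarefree a) (hde : d * e = a) (p : a.primeFactors) :
    ind a d p + ind a e p = 1 := ind_sum ha hde p

end Pool.Agent.Work.MP_8efaaa_nt.SR
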