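import Mathlib
import Pool.Agent.Work.MP_8efaaa_nt.SR.Defs
import Pool.Agent.Work.MP_8efaaa_nt.SR.Ker
import Pool.Agent.Work.MP_8efaaa_nt.SR.Red

/-!
# SR/Pat5 (M): the patterns in the class `5` modulo `8`

PROOF. `u = ind a d`, `redei a u = 0` (`redei_zero`), the same for `ind a e`. `sg 2 p = 0` iff `p = 1, 7 (mod 8)`, `sg (-1) p = 0` iff `p = 1 (mod 4)` (`jacobiSym.at_two`, `ZMod.χ₈`, `jacobiSym.at_neg_one`, `ZMod.χ₄`, or `legendreSym`; `p` is an odd prime). `d = 1 (mod 8)`, `d > 1`, `e = 5 (mod 8)`, so `e > 1`.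
(i) All prime factors of `a` are `1 (mod 4)`: `two_vec` with `(x, z) = (u, 0)` and `(1, 0)` (`redei_one`); they are different since `e > 1` has a prime factor, at which `u` is `0`. (ii) All prime factors of `d` are `1 (mod 8)`: `(u, 0)` and `(0, u)`. (iii) All prime factors of `d` are `7 (mod 8)` and those of `e` are
`1 (mod 4)`: `(u, u)` and `(ind a e, 0)`. (`card ≤ 3`, `e > 1`): `d` has at most two prime factors. If `d` is prime: `(ii)`. If `d = p1 p2`, then `e` is a prime, `5 (mod 8)`, and `p1 p2 = 1 (mod 8)`: `p1 = p2 (mod 8)`: classes `1, 1`: (ii); `5, 5`: (i); `7, 7`: (iii); `3, 3`: the conclusion holds.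
Getting the prime factors: `d` has a prime factor `p1`, `d = p1 * d'`; if `d' = 1` it is prime, otherwise it has a prime factor `p2`, `d' = p2 * d''`, and `d'' = 1` because otherwise `a` has four prime factors (`p1, p2`, one of `d''`, one of `e`; all different, `a` squarefree; `Finset.card_le_card` for `{p1, p2, p3, p4} ⊆ a.primeFactors`).
In the same way `e` is a prime if `d` is not.
-/

set_option autoImplicit false

namespace Pool.Agent.Work.MP_8efaaa_nt.SR

private theorem sg_neg_one {p : ℕ} (h : p % 4 = 1) : sg (-1) p = 0 := by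
  have ho : Odd p := Nat.odd_iff.2 (by omega)
  unfold sg
  rw [jacobiSym.at_neg_one ho, ZMod.χ₄_nat_one_mod_four h, if_neg (by norm_num)]

private theorem sg_two {p : ℕ} (h : p % 8 = 1 ∨ p % 8 = 7) : sg 2 p = 0 := by
  have ho : Odd p := Nat.odd_iff.2 (by omega)
  unfold sg
  rw [jacobiSym.at_two ho, ZMod.χ₈_nat_eq_if_mod_eight, if_neg (by omega : ¬ p % 2 = 0),
    if_pos h, if_neg (by norm_num)]

private theorem ind_one {a d : ℕ} {p : a.primeFactors} (h : (p : ℕ) ∣ d) : ind a d p = 1 :=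
  if_pos h

private theorem ind_zero {a d : ℕ} {p : a.primeFactors} (h : ¬ (p : ℕ) ∣ d) : ind a d p = 0 :=
  if_neg h

private theorem ind_ne {a d : ℕ} (ha : a ≠ 0) (hda : d ∣ a) (hd1 : 1 < d) : ind a d ≠ 0 := by
  intro h
  have hp : (Nat.minFac d).Prime := Nat.minFac_prime (by omega)
  have hpa : Nat.minFac d ∈ a.primeFactors :=
    Nat.mem_primeFactors.2 ⟨hp, (Nat.minFac_dvd d).trans hda, ha⟩
  have h1 := congrFun h ⟨_, hpa⟩
  rw [ind_one (Nat.minFac_dvd d)] at h1
  exact one_ne_zero h1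

private theorem ind_lt {a d e : ℕ} (ha : Squarefree a) (hde : d * e = a) (he1 : 1 < e) :
    ind a d ≠ fun _ => 1 := by
  intro h
  have h1 : ind a e = 0 := by
    funext p
    have h2 := ind_add ha hde p
    rw [congrFun h p] at h2
    have h3 : ind a e p = (1 + ind a e p) - 1 := by ring
    rw [h3, h2]
    show (1 : ZMod 2) - 1 = 0
    ring
  exact ind_ne ha.ne_zero ⟨d, by rw [← hde]; ring⟩ he1 h1

/-- all the prime factors are `1` modulo `4` -/
private theorem case_one {a d e : ℕ} (ha : Squarefree a) (ho : Odd a) (hde : d * e = a)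
    (hd1 : 1 < d) (he1 : 1 < e)
    (h0 : (redei a).mulVec (ind a d) = 0) (h4 : ∀ p : ℕ, p.Prime → p ∣ a → p % 4 = 1) :
    (monsky a).rank + 1 ≠ 2 * a.primeFactors.card := by
  have hs : ∀ p : a.primeFactors, sg (-1) p = 0 := fun p =>
    sg_neg_one (h4 p (Nat.prime_of_mem_primeFactors p.2) (Nat.dvd_of_mem_primeFactors p.2))
  have hn := ind_ne ha.ne_zero ⟨e, hde.symm⟩ hd1
  have hl := ind_lt ha hde he1
  refine two_vec ho (x := ind a d) (z := 0) (x' := fun _ => 1) (z' := 0) ?_ ?_ ?_ ?_ ?_ ?_ ?_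
  · rw [h0]
    funext p
    rw [Pi.zero_apply, mul_zero]
  · rw [Matrix.mulVec_zero]
    funext p
    rw [hs, zero_mul, Pi.zero_apply]
  · rw [redei_one ha ho]
    funext p
    rw [Pi.zero_apply, mul_zero]
  · rw [Matrix.mulVec_zero]
    funext p
    rw [hs, zero_mul, Pi.zero_apply]
  · exact fun h => hn h.1
  · intro h
    apply hl
    rw [h.1]
    have h2 := h.1
    exfalso
    have hp : (Nat.minFac d).Prime := Nat.minFac_prime (by omega)
    have hpa : Nat.minFac d ∈ a.primeFactors :=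
      Nat.mem_primeFactors.2 ⟨hp, (Nat.minFac_dvd d).trans ⟨e, hde.symm⟩, ha.ne_zero⟩
    exact one_ne_zero (congrFun h2 ⟨_, hpa⟩)
  · exact fun h => hl h.1

/-- all the prime factors of `d` are `1` modulo `8` -/
private theorem case_two {a d e : ℕ} (ha : Squarefree a) (ho : Odd a) (hde : d * e = a)
    (hd1 : 1 < d) (h0 : (redei a).mulVec (ind a d) = 0)
    (h8 : ∀ p : ℕ, p.Prime → p ∣ d → p % 8 = 1) :
    (monsky a).rank + 1 ≠ 2 * a.primeFactors.card := by
  have hn := ind_ne ha.ne_zero ⟨e, hde.symm⟩ hd1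
  have hs1 : ∀ p : a.primeFactors, sg (-1) p * ind a d p = 0 := by
    intro p
    by_cases hp : (p : ℕ) ∣ d
    · have := h8 p (Nat.prime_of_mem_primeFactors p.2) hp
      rw [sg_neg_one (by omega), zero_mul]
    · rw [ind_zero hp, mul_zero]
  have hs2 : ∀ p : a.primeFactors, sg 2 p * ind a d p = 0 := by
    intro p
    by_cases hp : (p : ℕ) ∣ d
    · rw [sg_two (Or.inl (h8 p (Nat.prime_of_mem_primeFactors p.2) hp)), zero_mul]
    · rw [ind_zero hp, mul_zero]
  refine two_vec ho (x := ind a d) (z := 0) (x' := 0) (z' := ind a d) ?_ ?_ ?_ ?_ ?_ ?_ ?_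
  · rw [h0]
    funext p
    rw [Pi.zero_apply, mul_zero]
  · rw [Matrix.mulVec_zero]
    funext p
    rw [Pi.zero_apply, add_zero, hs1]
  · rw [Matrix.mulVec_zero]
    funext p
    rw [hs2, Pi.zero_apply]
  · rw [h0]
    funext p
    rw [Pi.zero_apply, zero_add, hs1]
  · exact fun h => hn h.1
  · exact fun h => hn h.2
  · exact fun h => hn h.1

/-- the prime factors of `d` are `7` modulo `8`, those of `e` are `1` modulo `4` -/
private theorem case_three {a d e : ℕ} (ha : Squarefree a) (ho : Odd a) (hde : d * e = a)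
    (hd1 : 1 < d) (he1 : 1 < e) (h0 : (redei a).mulVec (ind a d) = 0)
    (h0' : (redei a).mulVec (ind a e) = 0)
    (h8 : ∀ p : ℕ, p.Prime → p ∣ d → p % 8 = 7) (h4 : ∀ p : ℕ, p.Prime → p ∣ e → p % 4 = 1) :
    (monsky a).rank + 1 ≠ 2 * a.primeFactors.card := by
  have hn := ind_ne ha.ne_zero ⟨e, hde.symm⟩ hd1
  have hn' := ind_ne ha.ne_zero ⟨d, by rw [← hde]; ring⟩ he1
  have hs2 : ∀ p : a.primeFactors, sg 2 p * ind a d p = 0 := by
    intro p
    by_cases hp : (p : ℕ) ∣ d
    · rw [sg_two (Or.inr (h8 p (Nat.prime_of_mem_primeFactors p.2) hp)), zero_mul]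
    · rw [ind_zero hp, mul_zero]
  have hs1 : ∀ p : a.primeFactors, sg (-1) p * ind a e p = 0 := by
    intro p
    by_cases hp : (p : ℕ) ∣ e
    · rw [sg_neg_one (h4 p (Nat.prime_of_mem_primeFactors p.2) hp), zero_mul]
    · rw [ind_zero hp, mul_zero]
  refine two_vec ho (x := ind a d) (z := ind a d) (x' := ind a e) (z' := 0)
    ?_ ?_ ?_ ?_ ?_ ?_ ?_
  · rw [h0]
    funext p
    rw [hs2, Pi.zero_apply]
  · rw [h0]
    funext p
    rw [CharTwo.add_self_eq_zero, mul_zero, Pi.zero_apply]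
  · rw [h0']
    funext p
    rw [Pi.zero_apply, mul_zero]
  · rw [Matrix.mulVec_zero]
    funext p
    rw [Pi.zero_apply, add_zero, hs1]
  · exact fun h => hn h.1
  · exact fun h => hn' h.1
  · exact fun h => hn h.2

theorem pat5 {a d e : ℕ} (ha : Squarefree a) (h8 : a % 8 = 5) (hk : a.primeFactors.card ≤ 3)
    (hde : d * e = a) (hd8 : d % 8 = 1) (hd1 : 1 < d)
    (h1 : ∀ p : ℕ, p.Prime → p ∣ d → jacobiSym e p = 1)
    (h2 : ∀ p : ℕ, p.Prime → p ∣ e → jacobiSym d p = 1)
    (hM : (monsky a).rank + 1 = 2 * a.primeFactors.card) :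
    ∃ r1 r2 q : ℕ, r1.Prime ∧ r2.Prime ∧ q.Prime ∧ r1 ≠ r2 ∧ r1 % 8 = 3 ∧ r2 % 8 = 3 ∧
      q % 8 = 5 ∧ a = r1 * r2 * q := by
  have ho : Odd a := Nat.odd_iff.2 (by omega)
  have he8 : e % 8 = 5 := by
    have h3 : (d * e) % 8 = 5 := by rw [hde]; exact h8
    rw [Nat.mul_mod, hd8] at h3
    have : e % 8 < 8 := Nat.mod_lt _ (by norm_num)
    omega
  have he1 : 1 < e := by omega
  have h0 := redei_zero ha ho hde h1 h2
  have h0' := redei_zero ha ho (d := e) (e := d) (by rw [mul_comm]; exact hde) h2 h1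
  have hcop : Nat.Coprime d e := by
    have h3 := ha
    rw [← hde] at h3
    exact Nat.coprime_of_squarefree_mul h3
  have hds : Squarefree d := ha.squarefree_of_dvd ⟨e, hde.symm⟩
  have hes : Squarefree e := ha.squarefree_of_dvd ⟨d, by rw [← hde]; ring⟩
  have hcard : d.primeFactors.card + e.primeFactors.card ≤ 3 := by
    have h3 := hcop.primeFactors_mul
    rw [hde] at h3
    rw [h3, Finset.card_union_of_disjoint hcop.disjoint_primeFactors] at hk
    exact hk
  have hdp : 0 < d.primeFactors.card := Finset.card_pos.2 (Nat.nonempty_primeFactors.2 hd1)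
  have hep : 0 < e.primeFactors.card := Finset.card_pos.2 (Nat.nonempty_primeFactors.2 he1)
  have hdprod := Nat.prod_primeFactors_of_squarefree hds
  have heprod := Nat.prod_primeFactors_of_squarefree hes
  have hc : d.primeFactors.card = 1 ∨ d.primeFactors.card = 2 := by omega
  rcases hc with hc | hc
  · obtain ⟨p, hp⟩ := Finset.card_eq_one.1 hc
    rw [hp, Finset.prod_singleton] at hdprod
    exfalso
    refine case_two ha ho hde hd1 h0 ?_ hM
    intro q hq hqd
    have h3 : q ∈ d.primeFactors := Nat.mem_primeFactors.2 ⟨hq, hqd, by omega⟩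
    rw [hp, Finset.mem_singleton] at h3
    rw [h3, hdprod]
    exact hd8
  · obtain ⟨p1, p2, hne, hp⟩ := Finset.card_eq_two.1 hc
    obtain ⟨q, hq⟩ := Finset.card_eq_one.1 (by omega : e.primeFactors.card = 1)
    rw [hp, Finset.prod_pair hne] at hdprod
    rw [hq, Finset.prod_singleton] at heprod
    have hp1 : p1.Prime := Nat.prime_of_mem_primeFactors (n := d)
      (by rw [hp]; exact Finset.mem_insert_self _ _)
    have hp2 : p2.Prime := Nat.prime_of_mem_primeFactors (n := d)
      (by rw [hp]; exact Finset.mem_insert_of_mem (Finset.mem_singleton_self _))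
    have hqp : q.Prime := Nat.prime_of_mem_primeFactors (n := e)
      (by rw [hq]; exact Finset.mem_singleton_self _)
    have hdf : ∀ r : ℕ, r.Prime → r ∣ d → r = p1 ∨ r = p2 := by
      intro r hr hrd
      have h3 : r ∈ d.primeFactors := Nat.mem_primeFactors.2 ⟨hr, hrd, by omega⟩
      rw [hp, Finset.mem_insert, Finset.mem_singleton] at h3
      exact h3
    have hef : ∀ r : ℕ, r.Prime → r ∣ e → r = q := by
      intro r hr hre
      have h3 : r ∈ e.primeFactors := Nat.mem_primeFactors.2 ⟨hr, hre, by omega⟩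
      rw [hq, Finset.mem_singleton] at h3
      exact h3
    have haf : ∀ r : ℕ, r.Prime → r ∣ a → r = p1 ∨ r = p2 ∨ r = q := by
      intro r hr hra
      rw [← hde] at hra
      rcases (Nat.Prime.dvd_mul hr).1 hra with h3 | h3
      · rcases hdf r hr h3 with h4 | h4
        · exact Or.inl h4
        · exact Or.inr (Or.inl h4)
      · exact Or.inr (Or.inr (hef r hr h3))
    have hq8 : q % 8 = 5 := by rw [heprod]; exact he8
    have hmod : (p1 % 8) * (p2 % 8) % 8 = 1 := by
      rw [← Nat.mul_mod, hdprod]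
      exact hd8
    have hl1 : p1 % 8 < 8 := Nat.mod_lt _ (by norm_num)
    have hl2 : p2 % 8 < 8 := Nat.mod_lt _ (by norm_num)
    have hcls : (p1 % 8 = 1 ∧ p2 % 8 = 1) ∨ (p1 % 8 = 3 ∧ p2 % 8 = 3) ∨
        (p1 % 8 = 5 ∧ p2 % 8 = 5) ∨ (p1 % 8 = 7 ∧ p2 % 8 = 7) := by
      generalize p1 % 8 = x at hmod hl1 ⊢
      generalize p2 % 8 = y at hmod hl2 ⊢
      interval_cases x <;> interval_cases y <;> omega
    rcases hcls with ⟨c1, c2⟩ | ⟨c1, c2⟩ | ⟨c1, c2⟩ | ⟨c1, c2⟩
    · exfalso
      refine case_two ha ho hde hd1 h0 ?_ hM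
      intro r hr hrd
      rcases hdf r hr hrd with h3 | h3 <;> rw [h3] <;> assumption
    · exact ⟨p1, p2, q, hp1, hp2, hqp, hne, c1, c2, hq8, by rw [← hde, ← hdprod, ← heprod]⟩
    · exfalso
      refine case_one ha ho hde hd1 he1 h0 ?_ hM
      intro r hr hra
      rcases haf r hr hra with h3 | h3 | h3 <;> rw [h3] <;> omega
    · exfalso
      refine case_three ha ho hde hd1 he1 h0 h0' ?_ ?_ hM
      · intro r hr hrd
        rcases hdf r hr hrd with h3 | h3 <;> rw [h3] <;> assumption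
      · intro r hr hre
        rw [hef r hr hre]
        omega

end Pool.Agent.Work.MP_8efaaa_nt.SR
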