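import Mathlib
import Pool.Agent.Work.MP_8efaaa_nt.SR.Defs
import Pool.Agent.Work.MP_8efaaa_nt.SR.Ker
import Pool.Agent.Work.MP_8efaaa_nt.SR.Red

/-!
# SR/Pat7 (M-L): the patterns in the class `7` modulo `8`

PROOF. `u = ind a d`, `redei a (ind a d) = 0 = redei a (ind a e)` (`redei_zero`, twice; `d`, `e` can be exchanged). `sg 2 p = 0` iff `p = 1, 7 (mod 8)`, `sg (-1) p = 0` iff `p = 1 (mod 4)`.
(A) If all prime factors of `d` (or all of `e`) are `1 (mod 8)`: `two_vec` with `(u, 0)`, `(0, u)`. (B) All prime factors of `a` are `7 (mod 8)`: `(u, u)` and `(1, 1)` (`redei_one`; different since `e > 1`). (C) All prime factors of `d` are `7 (mod 8)` and those of `e` are `1 (mod 4)`: `(u, u)` and `(ind a e, 0)` (or with `d`, `e` exchanged).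
At most three prime factors, `d, e > 1`, `a = 7 (mod 8)`. Two prime factors `{p, l}`: classes `(1, 7)`: (A); `(3, 5)`, `r` and `q`: `h3` gives `m`, `f` (the second case has three prime factors): if `q ∣ m` then `jacobiSym (2 f) q = 1`, `f ∈ {1, r}`, `jacobiSym r q = 1` (`h1` or `h2`), so `jacobiSym f q = 1` and
`jacobiSym 2 q = -1` (`q = 5 (mod 8)`): contradiction; if `q ∣ f`: the same with `m`. Three prime factors: exactly one of `d`, `e` is a prime, by symmetry of everything assume that it is `d = p0` (or work with both), `e = p1 p2`. Classes (sorted) of `a`: `(1,1,7)`, `(1,3,5)`, `(3,3,7)`, `(5,5,7)`, `(7,7,7)`.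
`(1,1,7)`: `d` or `e` has only prime factors `1 (mod 8)`: (A). `(7,7,7)`: (B). `(3,3,7)`: the conclusion. `(1,3,5)`: if `p0 = 1 (mod 8)`: (A). If `p0 = q = 5 (mod 8)` [`p = 1`, `r = 3`]: `h1`, `h2` give `(q/p) = (q/r) = 1`, `(p r/q) = 1`, so (reciprocity, `q = 1 (mod 4)`) `(p/q) = (r/q) = 1`; first case of `h3`: `q ∣ m`: `1 = (2 f / q) = (2/q) (f/q) = -1`
as `f ∣ p r`; `q ∣ f`: the same: contradiction. Second case of `h3` (all symbols `1`): then `p`, `a / p` satisfy the conditions `h1`, `h2` (products of symbols): (A) with `d := p`. If `p0 = r = 3 (mod 8)`: `(r/p) = (r/q) = 1`, `(p q/r) = 1`; reciprocity (`p, q = 1 (mod 4)`): `(p/r) = (q/r) = 1`; first case of `h3`: modulo `r`: `(2/r) = -1` and `(f/r) = 1` or `(m/r) = 1`: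
contradiction; second case as before. `(5,5,7)`: if `p0 = l = 7`: (C) with `d = l`. If `p0 = q1 = 5 (mod 8)`: `(q1/q2) = (q1/l) = 1`, `(q2 l/q1) = 1`, so `(q2/q1) = 1 = (l/q1)` (reciprocity): modulo `q1` contradiction in the first case of `h3`; second case: `l`, `a / l` satisfy `h1`, `h2`: (C).
-/

set_option autoImplicit false

namespace Pool.Agent.Work.MP_8efaaa_nt.SR

private lemma sg_two {p : ℕ} (h : p % 8 = 1 ∨ p % 8 = 7) : sg 2 p = 0 := by
  unfold sg
  rw [if_neg]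
  have ho : Odd p := Nat.odd_iff.2 (by omega)
  have h1 : p % 2 ≠ 0 := by omega
  rw [jacobiSym.at_two ho, ZMod.χ₈_nat_eq_if_mod_eight, if_neg h1, if_pos h]
  norm_num

private lemma sg_neg {p : ℕ} (h : p % 4 = 1) : sg (-1) p = 0 := by
  unfold sg
  rw [if_neg]
  have ho : Odd p := Nat.odd_iff.2 (by omega)
  rw [jacobiSym.at_neg_one ho, ZMod.χ₄_nat_one_mod_four h]
  norm_num

private lemma ind_ne {a d e : ℕ} (ha : Squarefree a) (hde : d * e = a) (hd1 : 1 < d) :
    ind a d ≠ 0 := by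
  intro h
  obtain ⟨p, hp, hpd⟩ := Nat.exists_prime_and_dvd (show d ≠ 1 by omega)
  have hpa : p ∈ a.primeFactors :=
    Nat.mem_primeFactors.2 ⟨hp, hpd.trans ⟨e, hde.symm⟩, ha.ne_zero⟩
  have h1 := congrFun h ⟨p, hpa⟩
  unfold ind at h1
  rw [if_pos hpd] at h1
  exact one_ne_zero h1

private lemma mul_ind {a d : ℕ} {f : ℕ → ZMod 2} (h : ∀ p : ℕ, p.Prime → p ∣ d → f p = 0)
    (p : a.primeFactors) : f p * ind a d p = 0 := by
  unfold ind
  by_cases hp : (p : ℕ) ∣ d
  · rw [h p (Nat.prime_of_mem_primeFactors p.2) hp, zero_mul]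
  · rw [if_neg hp, mul_zero]

private lemma two_mul_zero (x : ZMod 2) : x + x = 0 := CharTwo.add_self_eq_zero x

private lemma caseA {a d e : ℕ} (ha : Squarefree a) (ho : Odd a)
    (hde : d * e = a) (hd1 : 1 < d)
    (h1 : ∀ p : ℕ, p.Prime → p ∣ d → jacobiSym e p = 1)
    (h2 : ∀ p : ℕ, p.Prime → p ∣ e → jacobiSym d p = 1)
    (hM : (monsky a).rank + 1 = 2 * a.primeFactors.card)
    (hd : ∀ p : ℕ, p.Prime → p ∣ d → p % 8 = 1) : False := by
  have hu := redei_zero ha ho hde h1 h2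
  have hne := ind_ne ha hde hd1
  refine two_vec ho (x := ind a d) (z := 0) (x' := 0) (z' := ind a d) ?_ ?_ ?_ ?_ ?_ ?_ ?_ hM
  · rw [hu]
    funext p
    simp
  · rw [Matrix.mulVec_zero]
    funext p
    have := mul_ind (a := a) (d := d) (f := fun p => sg (-1) p)
      (fun p hp hpd => sg_neg (by have := hd p hp hpd; omega)) p
    simp only [Pi.zero_apply, add_zero]
    exact this.symm
  · rw [Matrix.mulVec_zero]
    funext p
    have := mul_ind (a := a) (d := d) (f := fun p => sg 2 p)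
      (fun p hp hpd => sg_two (Or.inl (hd p hp hpd))) p
    exact this.symm
  · rw [hu]
    funext p
    have := mul_ind (a := a) (d := d) (f := fun p => sg (-1) p)
      (fun p hp hpd => sg_neg (by have := hd p hp hpd; omega)) p
    simp only [Pi.zero_apply, zero_add]
    exact this.symm
  · exact fun h => hne h.1
  · exact fun h => hne h.2
  · exact fun h => hne h.1

private lemma caseB {a d e : ℕ} (ha : Squarefree a) (ho : Odd a)
    (hde : d * e = a) (hd1 : 1 < d) (he1 : 1 < e)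
    (h1 : ∀ p : ℕ, p.Prime → p ∣ d → jacobiSym e p = 1)
    (h2 : ∀ p : ℕ, p.Prime → p ∣ e → jacobiSym d p = 1)
    (hM : (monsky a).rank + 1 = 2 * a.primeFactors.card)
    (hd : ∀ p : ℕ, p.Prime → p ∣ a → p % 8 = 7) : False := by
  have hu := redei_zero ha ho hde h1 h2
  have hone := redei_one ha ho
  have hne := ind_ne ha hde hd1
  have hs : ∀ p : a.primeFactors, sg 2 (p : ℕ) = 0 := fun p =>
    sg_two (Or.inr (hd p (Nat.prime_of_mem_primeFactors p.2) (Nat.dvd_of_mem_primeFactors p.2)))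
  obtain ⟨q, hq, hqe⟩ := Nat.exists_prime_and_dvd (show e ≠ 1 by omega)
  have hqa : q ∈ a.primeFactors :=
    Nat.mem_primeFactors.2 ⟨hq, hqe.trans ⟨d, by rw [mul_comm]; exact hde.symm⟩, ha.ne_zero⟩
  have hcop : Nat.Coprime d e := Nat.coprime_of_squarefree_mul (by rw [hde]; exact ha)
  have hqd : ¬ q ∣ d := by
    intro h
    have h3 := Nat.dvd_gcd h hqe
    rw [Nat.Coprime.gcd_eq_one hcop] at h3
    exact hq.one_lt.ne' (Nat.dvd_one.1 h3)
  refine two_vec ho (x := ind a d) (z := ind a d) (x' := fun _ => 1) (z' := fun _ => 1)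
    ?_ ?_ ?_ ?_ ?_ ?_ ?_ hM
  · rw [hu]
    funext p
    rw [hs p, zero_mul]
    rfl
  · rw [hu]
    funext p
    rw [two_mul_zero, mul_zero]
    rfl
  · rw [hone]
    funext p
    rw [hs p, zero_mul]
    rfl
  · rw [hone]
    funext p
    rw [two_mul_zero, mul_zero]
    rfl
  · exact fun h => hne h.1
  · intro h
    have := congrFun h.1 ⟨q, hqa⟩
    exact one_ne_zero this
  · intro h
    have := congrFun h.1 ⟨q, hqa⟩
    unfold ind at this
    rw [if_neg hqd] at this
    exact zero_ne_one this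

private lemma caseC {a d e : ℕ} (ha : Squarefree a) (ho : Odd a)
    (hde : d * e = a) (hd1 : 1 < d) (he1 : 1 < e)
    (h1 : ∀ p : ℕ, p.Prime → p ∣ d → jacobiSym e p = 1)
    (h2 : ∀ p : ℕ, p.Prime → p ∣ e → jacobiSym d p = 1)
    (hM : (monsky a).rank + 1 = 2 * a.primeFactors.card)
    (hd : ∀ p : ℕ, p.Prime → p ∣ d → p % 8 = 7) (he : ∀ p : ℕ, p.Prime → p ∣ e → p % 4 = 1) :
    False := by
  have hu := redei_zero ha ho hde h1 h2
  have hw := redei_zero ha ho (show e * d = a by rw [mul_comm]; exact hde) h2 h1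
  have hne := ind_ne ha hde hd1
  have hne' := ind_ne ha (show e * d = a by rw [mul_comm]; exact hde) he1
  refine two_vec ho (x := ind a d) (z := ind a d) (x' := ind a e) (z' := 0)
    ?_ ?_ ?_ ?_ ?_ ?_ ?_ hM
  · rw [hu]
    funext p
    have := mul_ind (a := a) (d := d) (f := fun p => sg 2 p)
      (fun p hp hpd => sg_two (Or.inr (hd p hp hpd))) p
    exact this.symm
  · rw [hu]
    funext p
    rw [two_mul_zero, mul_zero]
    rfl
  · rw [hw]
    funext p
    simp
  · rw [Matrix.mulVec_zero]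
    funext p
    have := mul_ind (a := a) (d := e) (f := fun p => sg (-1) p)
      (fun p hp hpe => sg_neg (he p hp hpe)) p
    simp only [Pi.zero_apply, add_zero]
    exact this.symm
  · exact fun h => hne h.1
  · exact fun h => hne' h.1
  · exact fun h => hne h.2

private lemma jac_one {q : ℕ} : ∀ n : ℕ, n ≠ 0 →
    (∀ x : ℕ, x.Prime → x ∣ n → jacobiSym x q = 1) → jacobiSym n q = 1 := by
  intro n
  induction n using Nat.strong_induction_on with
  | _ n ih =>
  intro hn h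
  by_cases h1 : n = 1
  · subst h1
    simp
  obtain ⟨p, hp, m, rfl⟩ := Nat.exists_prime_and_dvd h1
  have hm : m ≠ 0 := right_ne_zero_of_mul hn
  rw [Nat.cast_mul, jacobiSym.mul_left, h p hp (dvd_mul_right _ _), one_mul]
  refine ih m ?_ hm (fun x hx hxm => h x hx (hxm.mul_left p))
  have h2 := hp.one_lt
  have h3 : 0 < m := Nat.pos_of_ne_zero hm
  nlinarith

private lemma not_both {d e q : ℕ} (hs : Squarefree (d * e)) (hq : q.Prime) (hd : q ∣ d)
    (he : q ∣ e) : False := by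
  have hcop : Nat.Coprime d e := Nat.coprime_of_squarefree_mul hs
  have h3 := Nat.dvd_gcd hd he
  rw [Nat.Coprime.gcd_eq_one hcop] at h3
  exact hq.one_lt.ne' (Nat.dvd_one.1 h3)

private lemma all_one {a d e : ℕ} (ha : Squarefree a) (hde : d * e = a)
    (h : ∀ p q : ℕ, p.Prime → q.Prime → p ∣ a → q ∣ a → p ≠ q → jacobiSym q p = 1) :
    ∀ p : ℕ, p.Prime → p ∣ d → jacobiSym e p = 1 := by
  intro p hp hpd
  subst hde
  refine jac_one e (right_ne_zero_of_mul ha.ne_zero) fun x hx hxe =>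
    h p x hp hx (hpd.mul_right e) (hxe.mul_left d) ?_
  rintro rfl
  exact not_both ha hp hpd hxe

private lemma lemQ {a q m f : ℕ} (ha : Squarefree a) (hq : q.Prime) (hqa : q ∣ a)
    (hq8 : q % 8 = 3 ∨ q % 8 = 5)
    (hx : ∀ x : ℕ, x.Prime → x ∣ a → x ≠ q → jacobiSym x q = 1) (hmf : m * f = a)
    (hm : ∀ p : ℕ, p.Prime → p ∣ m → jacobiSym (2 * f : ℕ) p = 1)
    (hf : ∀ p : ℕ, p.Prime → p ∣ f → jacobiSym (2 * m : ℕ) p = 1) : False := by
  have key : ∀ m f : ℕ, m * f = a → q ∣ m → jacobiSym (2 * f : ℕ) q = 1 → False := by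
    intro m f hmf hqm h
    subst hmf
    have hfq : jacobiSym f q = 1 := jac_one f (right_ne_zero_of_mul ha.ne_zero) fun x hx' hxf =>
      hx x hx' (hxf.mul_left m) (by
        rintro rfl
        exact not_both ha hx' hqm hxf)
    have ho : Odd q := Nat.odd_iff.2 (by omega)
    have h2 : jacobiSym 2 q = -1 := by
      have e1 : q % 2 ≠ 0 := by omega
      have e2 : ¬ (q % 8 = 1 ∨ q % 8 = 7) := by omega
      rw [jacobiSym.at_two ho, ZMod.χ₈_nat_eq_if_mod_eight, if_neg e1, if_neg e2]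
    rw [Nat.cast_mul, jacobiSym.mul_left, hfq, Nat.cast_ofNat, h2] at h
    norm_num at h
  have h3 : q ∣ m * f := by rw [hmf]; exact hqa
  rcases (Nat.Prime.dvd_mul hq).1 h3 with h4 | h4
  · exact key m f hmf h4 (hm q hq h4)
  · exact key f m (by rw [mul_comm]; exact hmf) h4 (hf q hq h4)

private lemma card4 {a x y z w : ℕ} (ha : a ≠ 0) (hk : a.primeFactors.card ≤ 3)
    (hx : x.Prime) (hy : y.Prime) (hz : z.Prime) (hw : w.Prime) (hxa : x ∣ a) (hya : y ∣ a)
    (hza : z ∣ a) (hwa : w ∣ a) (h1 : x ≠ y) (h2 : x ≠ z) (h3 : x ≠ w) (h4 : y ≠ z)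
    (h5 : y ≠ w) (h6 : z ≠ w) : False := by
  have hsub : ({x, y, z, w} : Finset ℕ) ⊆ a.primeFactors := by
    intro t ht
    simp only [Finset.mem_insert, Finset.mem_singleton] at ht
    rw [Nat.mem_primeFactors]
    rcases ht with rfl | rfl | rfl | rfl
    · exact ⟨hx, hxa, ha⟩
    · exact ⟨hy, hya, ha⟩
    · exact ⟨hz, hza, ha⟩
    · exact ⟨hw, hwa, ha⟩
  have hc : ({x, y, z, w} : Finset ℕ).card = 4 := by
    rw [Finset.card_insert_of_notMem, Finset.card_insert_of_notMem, Finset.card_pair h6]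
    · simp [h4, h5]
    · simp [h1, h2, h3]
  have := Finset.card_le_card hsub
  omega

private lemma exists_two {n : ℕ} (hn : 1 < n) (hs : Squarefree n) :
    n.Prime ∨ ∃ x y m : ℕ, x.Prime ∧ y.Prime ∧ x ≠ y ∧ n = x * y * m := by
  obtain ⟨x, hx, m, rfl⟩ := Nat.exists_prime_and_dvd (show n ≠ 1 by omega)
  by_cases hm : m = 1
  · left
    rw [hm, mul_one]
    exact hx
  · right
    obtain ⟨y, hy, t, rfl⟩ := Nat.exists_prime_and_dvd hm
    refine ⟨x, y, t, hx, hy, ?_, by ring⟩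
    rintro rfl
    exact not_both hs hx dvd_rfl (dvd_mul_right _ _)

private lemma mod_table : ∀ r0 < 8, ∀ r1 < 8, ∀ r2 < 8, (r0 * (r1 * r2)) % 8 = 7 →
    r0 = 1 ∨ (r1 = 1 ∧ r2 = 1) ∨ (r0 = 7 ∧ r1 = 7 ∧ r2 = 7) ∨
    (r0 = 7 ∧ r1 % 4 = 1 ∧ r2 % 4 = 1) ∨ (r0 = 3 ∧ r1 = 3 ∧ r2 = 7) ∨
    (r0 = 3 ∧ r1 = 7 ∧ r2 = 3) ∨ (r0 = 7 ∧ r1 = 3 ∧ r2 = 3) ∨
    ((r0 = 5 ∨ (r0 = 3 ∧ r2 % 4 = 1)) ∧ r1 = 1) ∨ ((r0 = 5 ∨ (r0 = 3 ∧ r1 % 4 = 1)) ∧ r2 = 1) ∨
    (r0 = 5 ∧ r1 = 7 ∧ r2 = 5) ∨ (r0 = 5 ∧ r1 = 5 ∧ r2 = 7) := by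
  intro r0 h0 r1 h1 r2 h2
  interval_cases r0 <;> interval_cases r1 <;> interval_cases r2 <;> decide

private lemma mod_table2 : ∀ r0 < 8, ∀ r1 < 8, (r0 * r1) % 8 = 7 →
    r0 = 1 ∨ r1 = 1 ∨ r0 = 3 ∨ r0 = 5 := by
  decide

private lemma core {a p0 e : ℕ} (ha : Squarefree a) (h8 : a % 8 = 7)
    (hk : a.primeFactors.card ≤ 3) (hp0 : p0.Prime) (hde : p0 * e = a) (he1 : 1 < e)
    (h1 : ∀ p : ℕ, p.Prime → p ∣ p0 → jacobiSym e p = 1)
    (h2 : ∀ p : ℕ, p.Prime → p ∣ e → jacobiSym p0 p = 1)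
    (h3 : (∃ m f : ℕ, m * f = a ∧ (∀ p : ℕ, p.Prime → p ∣ m → jacobiSym (2 * f : ℕ) p = 1) ∧
        ∀ p : ℕ, p.Prime → p ∣ f → jacobiSym (2 * m : ℕ) p = 1) ∨
      (a.primeFactors.card = 3 ∧ ∀ p q : ℕ, p.Prime → q.Prime → p ∣ a → q ∣ a → p ≠ q →
        jacobiSym q p = 1))
    (hM : (monsky a).rank + 1 = 2 * a.primeFactors.card) :
    ∃ r1 r2 l : ℕ, r1.Prime ∧ r2.Prime ∧ l.Prime ∧ r1 ≠ r2 ∧ r1 % 8 = 3 ∧ r2 % 8 = 3 ∧
      l % 8 = 7 ∧ a = r1 * r2 * l := by
  have ho : Odd a := Nat.odd_iff.2 (by omega)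
  have hae : e * p0 = a := by rw [mul_comm]; exact hde
  have hp0a : p0 ∣ a := ⟨e, hde.symm⟩
  have hea : e ∣ a := ⟨p0, hae.symm⟩
  have hse : Squarefree e := ha.squarefree_of_dvd hea
  have hodd : ∀ {p : ℕ}, p ∣ a → p % 2 = 1 := by
    intro p hp
    exact Nat.odd_iff.1 (ho.of_dvd_nat hp)
  have hpp0 : ∀ p : ℕ, p.Prime → p ∣ p0 → p = p0 := fun p hp h =>
    (Nat.prime_dvd_prime_iff_eq hp hp0).1 h
  rcases exists_two he1 hse with hp1 | ⟨p1, p2, m, hp1, hp2, h12, hem⟩
  · -- two primes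
    exfalso
    have hpe : ∀ p : ℕ, p.Prime → p ∣ e → p = e := fun p hp h =>
      (Nat.prime_dvd_prime_iff_eq hp hp1).1 h
    have hmod : (p0 % 8) * (e % 8) % 8 = 7 := by
      rw [← Nat.mul_mod, hde]
      exact h8
    have hcard : a.primeFactors.card = 2 := by
      have hne : p0 ≠ e := by
        rintro rfl
        rw [← hde] at ha
        exact not_both ha hp0 dvd_rfl dvd_rfl
      rw [← hde, Nat.primeFactors_mul hp0.ne_zero hp1.ne_zero, hp0.primeFactors,
        hp1.primeFactors]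
      exact Finset.card_pair hne
    rcases mod_table2 _ (Nat.mod_lt _ (by norm_num)) _ (Nat.mod_lt _ (by norm_num)) hmod with
      h | h | h
    · exact caseA ha ho hde hp0.one_lt h1 h2 hM (fun p hp hpd => by rw [hpp0 p hp hpd]; exact h)
    · exact caseA ha ho hae he1 h2 h1 hM (fun p hp hpd => by rw [hpe p hp hpd]; exact h)
    · rcases h3 with ⟨m, f, hmf, hm, hf⟩ | ⟨h4, -⟩
      · refine lemQ ha hp0 hp0a h ?_ hmf hm hf
        intro x hx hxa hx0
        rw [← hde] at hxa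
        rcases (Nat.Prime.dvd_mul hx).1 hxa with h5 | h5
        · exact absurd (hpp0 x hx h5) hx0
        · rw [hpe x hx h5]
          exact h1 p0 hp0 dvd_rfl
      · omega
  · -- three primes
    have hm1 : m = 1 := by
      by_contra hm
      obtain ⟨w, hw, hwm⟩ := Nat.exists_prime_and_dvd hm
      have hwe : w ∣ e := by rw [hem]; exact hwm.mul_left _
      have hp1e : p1 ∣ e := by rw [hem, mul_assoc]; exact dvd_mul_right _ _
      have hp2e : p2 ∣ e := by rw [hem, mul_comm p1 p2, mul_assoc]; exact dvd_mul_right _ _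
      have hne : ∀ {x : ℕ}, x ∣ e → p0 ≠ x := by
        rintro x hx rfl
        rw [← hde] at ha
        exact not_both ha hp0 dvd_rfl hx
      refine card4 ha.ne_zero hk hp0 hp1 hp2 hw hp0a (hp1e.trans hea) (hp2e.trans hea)
        (hwe.trans hea) (hne hp1e) (hne hp2e) (hne hwe) h12 ?_ ?_
      · rintro rfl
        rw [hem] at hse
        exact not_both hse hp1 (dvd_mul_right _ _) hwm
      · rintro rfl
        rw [hem] at hse
        exact not_both hse hp2 (dvd_mul_left _ _) hwm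
    rw [hm1, mul_one] at hem
    have hp1e : p1 ∣ e := by rw [hem]; exact dvd_mul_right _ _
    have hp2e : p2 ∣ e := by rw [hem]; exact dvd_mul_left _ _
    have hp1a := hp1e.trans hea
    have hp2a := hp2e.trans hea
    have hp01 : p0 ≠ p1 := by
      rintro rfl
      rw [← hde] at ha
      exact not_both ha hp0 dvd_rfl hp1e
    have hp02 : p0 ≠ p2 := by
      rintro rfl
      rw [← hde] at ha
      exact not_both ha hp0 dvd_rfl hp2e
    have hpe : ∀ p : ℕ, p.Prime → p ∣ e → p = p1 ∨ p = p2 := by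
      intro p hp h
      rw [hem] at h
      rcases (Nat.Prime.dvd_mul hp).1 h with h5 | h5
      · exact Or.inl ((Nat.prime_dvd_prime_iff_eq hp hp1).1 h5)
      · exact Or.inr ((Nat.prime_dvd_prime_iff_eq hp hp2).1 h5)
    have hmod : (p0 % 8) * ((p1 % 8) * (p2 % 8)) % 8 = 7 := by
      have e1 : (p0 * (p1 * p2)) % 8 = 7 := by rw [← hem, hde]; exact h8
      rw [Nat.mul_mod, Nat.mul_mod p1 p2] at e1
      rw [Nat.mul_mod (p0 % 8), Nat.mod_mod]
      exact e1
    -- all symbols are one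
    have hQ : (p0 % 8 = 3 ∨ p0 % 8 = 5) → (p0 % 4 = 1 ∨ (p1 % 4 = 1 ∧ p2 % 4 = 1)) →
        ∀ p q : ℕ, p.Prime → q.Prime → p ∣ a → q ∣ a → p ≠ q → jacobiSym q p = 1 := by
      intro hc hr
      rcases h3 with ⟨m, f, hmf, hm, hf⟩ | ⟨-, h4⟩
      · exfalso
        refine lemQ ha hp0 hp0a hc ?_ hmf hm hf
        intro x hx hxa hx0
        have hxe : x ∣ e := by
          rw [← hde] at hxa
          rcases (Nat.Prime.dvd_mul hx).1 hxa with h5 | h5
          · exact absurd (hpp0 x hx h5) hx0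
          · exact h5
        have h5 := h2 x hx hxe
        have hx2 : Odd x := Nat.odd_iff.2 (hodd hxa)
        have hp2' : Odd p0 := Nat.odd_iff.2 (hodd hp0a)
        by_cases h6 : p0 % 4 = 1
        · rw [← jacobiSym.quadratic_reciprocity_one_mod_four h6 hx2]
          exact h5
        · have h7 : x % 4 = 1 := by
            rcases hr with hr | ⟨hr1, hr2⟩
            · exact absurd hr h6
            · rcases hpe x hx hxe with h8' | h8'
              · rw [h8']; exact hr1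
              · rw [h8']; exact hr2
          rw [jacobiSym.quadratic_reciprocity_one_mod_four h7 hp2']
          exact h5
      · exact h4
    have hA : (∀ p q : ℕ, p.Prime → q.Prime → p ∣ a → q ∣ a → p ≠ q → jacobiSym q p = 1) →
        ∀ d' e' : ℕ, d' * e' = a → d'.Prime → d' % 8 = 1 → False := by
      intro hall d' e' hd' hdp hd8
      refine caseA ha ho hd' hdp.one_lt (all_one ha hd' hall)
        (all_one ha (by rw [mul_comm]; exact hd') hall) hM ?_
      intro p hp hpd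
      rw [(Nat.prime_dvd_prime_iff_eq hp hdp).1 hpd]
      exact hd8
    have e12 : p1 * (p0 * p2) = a := by rw [← hde, hem]; ring
    have e21 : p2 * (p0 * p1) = a := by rw [← hde, hem]; ring
    rcases mod_table _ (Nat.mod_lt _ (by norm_num)) _ (Nat.mod_lt _ (by norm_num)) _
      (Nat.mod_lt _ (by norm_num)) hmod with
      h | ⟨h, h'⟩ | ⟨h, h', h''⟩ | ⟨h, h', h''⟩ | ⟨h, h', h''⟩ | ⟨h, h', h''⟩ | ⟨h, h', h''⟩ |
      ⟨h, h'⟩ | ⟨h, h'⟩ | ⟨h, h', h''⟩ | ⟨h, h', h''⟩
    · exact (caseA ha ho hde hp0.one_lt h1 h2 hM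
        (fun p hp hpd => by rw [hpp0 p hp hpd]; exact h)).elim
    · exact (caseA ha ho hae he1 h2 h1 hM (fun p hp hpd => by
        rcases hpe p hp hpd with h5 | h5
        · rw [h5]; exact h
        · rw [h5]; exact h')).elim
    · exact (caseB ha ho hde hp0.one_lt he1 h1 h2 hM (fun p hp hpd => by
        rw [← hde] at hpd
        rcases (Nat.Prime.dvd_mul hp).1 hpd with h5 | h5
        · rw [hpp0 p hp h5]; exact h
        · rcases hpe p hp h5 with h6 | h6
          · rw [h6]; exact h'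
          · rw [h6]; exact h'')).elim
    · exact (caseC ha ho hde hp0.one_lt he1 h1 h2 hM
        (fun p hp hpd => by rw [hpp0 p hp hpd]; exact h) (fun p hp hpd => by
        rcases hpe p hp hpd with h5 | h5
        · rw [h5]; omega
        · rw [h5]; omega)).elim
    · exact ⟨p0, p1, p2, hp0, hp1, hp2, hp01, h, h', h'', by rw [← hde, hem]; ring⟩
    · exact ⟨p0, p2, p1, hp0, hp2, hp1, hp02, h, h'', h', by rw [← hde, hem]; ring⟩
    · exact ⟨p1, p2, p0, hp1, hp2, hp0, h12, h', h'', h, by rw [← hde, hem]; ring⟩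
    · exact (hA (hQ (by omega) (by omega)) p1 _ e12 hp1 h').elim
    · exact (hA (hQ (by omega) (by omega)) p2 _ e21 hp2 h').elim
    · have hall := hQ (by omega) (by omega)
      refine (caseC ha ho e12 hp1.one_lt ?_ (all_one ha e12 hall)
        (all_one ha (by rw [mul_comm]; exact e12) hall) hM ?_ ?_).elim
      · have := hp0.one_lt
        have := hp2.one_lt
        nlinarith
      · intro p hp hpd
        rw [(Nat.prime_dvd_prime_iff_eq hp hp1).1 hpd]
        exact h'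
      · intro p hp hpd
        rcases (Nat.Prime.dvd_mul hp).1 hpd with h5 | h5
        · rw [hpp0 p hp h5]; omega
        · rw [(Nat.prime_dvd_prime_iff_eq hp hp2).1 h5]; omega
    · have hall := hQ (by omega) (by omega)
      refine (caseC ha ho e21 hp2.one_lt ?_ (all_one ha e21 hall)
        (all_one ha (by rw [mul_comm]; exact e21) hall) hM ?_ ?_).elim
      · have := hp0.one_lt
        have := hp1.one_lt
        nlinarith
      · intro p hp hpd
        rw [(Nat.prime_dvd_prime_iff_eq hp hp2).1 hpd]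
        exact h''
      · intro p hp hpd
        rcases (Nat.Prime.dvd_mul hp).1 hpd with h5 | h5
        · rw [hpp0 p hp h5]; omega
        · rw [(Nat.prime_dvd_prime_iff_eq hp hp1).1 h5]; omega

theorem pat7 {a d e : ℕ} (ha : Squarefree a) (h8 : a % 8 = 7) (hk : a.primeFactors.card ≤ 3)
    (hde : d * e = a) (hd1 : 1 < d) (he1 : 1 < e)
    (h1 : ∀ p : ℕ, p.Prime → p ∣ d → jacobiSym e p = 1)
    (h2 : ∀ p : ℕ, p.Prime → p ∣ e → jacobiSym d p = 1)
    (h3 : (∃ m f : ℕ, m * f = a ∧ (∀ p : ℕ, p.Prime → p ∣ m → jacobiSym (2 * f : ℕ) p = 1) ∧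
        ∀ p : ℕ, p.Prime → p ∣ f → jacobiSym (2 * m : ℕ) p = 1) ∨
      (a.primeFactors.card = 3 ∧ ∀ p q : ℕ, p.Prime → q.Prime → p ∣ a → q ∣ a → p ≠ q →
        jacobiSym q p = 1))
    (hM : (monsky a).rank + 1 = 2 * a.primeFactors.card) :
    ∃ r1 r2 l : ℕ, r1.Prime ∧ r2.Prime ∧ l.Prime ∧ r1 ≠ r2 ∧ r1 % 8 = 3 ∧ r2 % 8 = 3 ∧
      l % 8 = 7 ∧ a = r1 * r2 * l := by
  have hd : Squarefree d := ha.squarefree_of_dvd ⟨e, hde.symm⟩
  have he : Squarefree e := ha.squarefree_of_dvd ⟨d, by rw [mul_comm]; exact hde.symm⟩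
  rcases exists_two hd1 hd with hdp | ⟨x, y, m, hx, hy, hxy, hdm⟩
  · exact core ha h8 hk hdp hde he1 h1 h2 h3 hM
  · rcases exists_two he1 he with hep | ⟨z, w, m', hz, hw, hzw, hem⟩
    · refine core ha h8 hk hep (by rw [mul_comm]; exact hde) hd1 h2 h1 ?_ hM
      rcases h3 with ⟨m, f, hmf, hm, hf⟩ | h3
      · exact Or.inl ⟨m, f, hmf, hm, hf⟩
      · exact Or.inr h3
    · exfalso
      have hxd : x ∣ d := by rw [hdm, mul_assoc]; exact dvd_mul_right _ _
      have hyd : y ∣ d := by rw [hdm, mul_comm x y, mul_assoc]; exact dvd_mul_right _ _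
      have hze : z ∣ e := by rw [hem, mul_assoc]; exact dvd_mul_right _ _
      have hwe : w ∣ e := by rw [hem, mul_comm z w, mul_assoc]; exact dvd_mul_right _ _
      have hda : d ∣ a := ⟨e, hde.symm⟩
      have hea : e ∣ a := ⟨d, by rw [mul_comm]; exact hde.symm⟩
      have hne : ∀ {s t : ℕ}, s.Prime → s ∣ d → t ∣ e → s ≠ t := by
        rintro s t hs hsd hte rfl
        rw [← hde] at ha
        exact not_both ha hs hsd hte
      exact card4 ha.ne_zero hk hx hy hz hw (hxd.trans hda) (hyd.trans hda) (hze.trans hea)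
        (hwe.trans hea) hxy (hne hx hxd hze) (hne hx hxd hwe) (hne hy hyd hze) (hne hy hyd hwe)
        hzw

end Pool.Agent.Work.MP_8efaaa_nt.SR
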