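import Mathlib
import Pool.Agent.Work.MP_8efaaa_nt.SR.NC5
import Pool.Agent.Work.MP_8efaaa_nt.SR.NC7
import Pool.Agent.Work.MP_8efaaa_nt.SR.Pat5
import Pool.Agent.Work.MP_8efaaa_nt.SR.Pat7
import Pool.Agent.Work.MP_8efaaa_nt.X5.Main
import Pool.Agent.Work.MP_8efaaa_nt.M7.Main

/-!
# SR/Main: at most three prime factors and Selmer rank one
-/

set_option autoImplicit false

namespace Pool.Agent.Work.MP_8efaaa_nt.SR

/-- `a = 5` or `7 (mod 8)` squarefree with at most three prime factors, Monsky matrix of corank one -/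
theorem main_sr {a : ℕ} (ha : Squarefree a) (h8 : a % 8 = 5 ∨ a % 8 = 7)
    (hk : a.primeFactors.card ≤ 3) (hM : (monsky a).rank + 1 = 2 * a.primeFactors.card) :
    IsCongruent a := by
  by_contra hnc
  rcases h8 with h8 | h8
  · obtain ⟨d, e, hde, hd8, hd1, h1, h2⟩ := nc5 ha h8 hk hnc
    obtain ⟨r1, r2, q, hr1, hr2, hq, hne, hr18, hr28, hq8, rfl⟩ :=
      pat5 ha h8 hk hde hd8 hd1 h1 h2 hM
    exact hnc (X5.main_335 hr1 hr2 hq hne hr18 hr28 hq8)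
  · obtain ⟨d, e, hde, hd1, he1, h1, h2, h3⟩ := nc7 ha h8 hk hnc
    obtain ⟨r1, r2, l, hr1, hr2, hl, hne, hr18, hr28, hl8, rfl⟩ :=
      pat7 ha h8 hk hde hd1 he1 h1 h2 h3 hM
    exact hnc (M7.main_t337 hr1 hr2 hl hr18 hr28 hl8 hne)

end Pool.Agent.Work.MP_8efaaa_nt.SR
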